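import Mathlib
import Pool.Agent.Lib.MP_551055_al.Trim.T4.Alg
import Pool.Agent.Lib.MP_551055_al.Trim.T4.Csub
import Pool.Agent.Lib.MP_551055_al.Trim.T4.Gen

/-!
# Generic bases of quotients `J' / J` killed by `q`
-/

set_option autoImplicit false

namespace Pool.Agent.Lib.MP_551055_al.T4

universe u v

section

variable {A : Type v} [CommRing A] {ι : Type}

/-- A generic basis of `J' / J`. -/
theorem exists_gen_basis₂ [IsNoetherianRing A] [Finite ι] (q : Ideal A) [q.IsPrime]
    (J J' : ι → Ideal A) (hJ : ∀ i, ∀ a ∈ q, ∀ x ∈ J' i, a * x ∈ J i) :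
    ∃ (c : A) (n : ℕ) (b : Fin n → ι → A), c ∉ q ∧ (∀ k i, b k i ∈ J' i) ∧
      (∀ t : Fin n → A, (∀ i, ∑ k, t k * b k i ∈ J i) → ∀ k, t k ∈ q) ∧
      (∀ y : ι → A, (∀ i, y i ∈ J' i) →
        ∃ t : Fin n → A, ∀ i, ∑ k, t k * b k i - c * y i ∈ J i) := by
  classical
  let P : Submodule A (ι → A) := Submodule.pi Set.univ fun i => J i
  have hP : ∀ y : ι → A, y ∈ P ↔ ∀ i, y i ∈ J i := by
    intro y
    rw [Submodule.mem_pi]
    exact ⟨fun h i => h i (Set.mem_univ i), fun h i _ => h i⟩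
  let P' : Submodule A (ι → A) := Submodule.pi Set.univ fun i => J' i
  have hP' : ∀ y : ι → A, y ∈ P' ↔ ∀ i, y i ∈ J' i := by
    intro y
    rw [Submodule.mem_pi]
    exact ⟨fun h i => h i (Set.mem_univ i), fun h i _ => h i⟩
  let N : Submodule A ((ι → A) ⧸ P) := P'.map P.mkQ
  have htors : Module.IsTorsionBySet A N q := by
    rintro ⟨y, hy⟩ ⟨a, ha⟩
    obtain ⟨x, hx, rfl⟩ := hy
    apply Subtype.ext
    change a • P.mkQ x = 0
    rw [← map_smul]
    exact (Submodule.Quotient.mk_eq_zero P).2 ((hP _).2 fun i => hJ i a ha _ ((hP' _).1 hx i))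
  let _ : Module (A ⧸ q) N := htors.module
  have : IsScalarTower A (A ⧸ q) N := htors.isScalarTower
  have hfin : Module.Finite A N := inferInstance
  have : Module.Finite (A ⧸ q) N := Module.Finite.of_restrictScalars_finite A (A ⧸ q) N
  obtain ⟨c', n, α, β, hc', h1, h2⟩ := exists_gen_free (B := A ⧸ q) (N := N)
  obtain ⟨c, rfl⟩ := Ideal.Quotient.mk_surjective c'
  have hsm : ∀ (a : A) (y : N), Ideal.Quotient.mk q a • y = a • y := fun a y =>
    htors.mk_smul a y
  choose b hb' hb using fun k : Fin n => (β (Pi.single k 1)).2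
  have hβ : ∀ t : Fin n → A, (β fun k => Ideal.Quotient.mk q (t k)).1 =
      P.mkQ (fun i => ∑ k, t k * b k i) := by
    intro t
    have h3 : (fun k => Ideal.Quotient.mk q (t k)) =
        ∑ k, Ideal.Quotient.mk q (t k) • (Pi.single k 1 : Fin n → A ⧸ q) := by
      funext l
      rw [Finset.sum_apply, Finset.sum_eq_single l]
      · rw [Pi.smul_apply, Pi.single_eq_same, smul_eq_mul, mul_one]
      · intro k _ hk
        rw [Pi.smul_apply, Pi.single_eq_of_ne (Ne.symm hk), smul_zero]
      · exact fun h => absurd (Finset.mem_univ l) h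
    rw [h3, map_sum]
    have h4 : (fun i => ∑ k, t k * b k i) = ∑ k, t k • b k := by
      funext i
      rw [Finset.sum_apply]
      rfl
    rw [h4, map_sum]
    change N.subtype (∑ k, β (_ • _)) = _
    rw [map_sum]
    refine Finset.sum_congr rfl fun k _ => ?_
    rw [map_smul, hsm, map_smul, map_smul, hb]
    rfl
  have hinj : ∀ t, β t = 0 → t = 0 := by
    intro t ht
    have h3 := h1 t
    rw [ht, map_zero] at h3
    funext k
    have h4 := congrFun h3.symm k
    rw [Pi.smul_apply, smul_eq_mul] at h4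
    exact (mul_eq_zero.1 h4).resolve_left hc'
  refine ⟨c, n, b, fun h => hc' (Ideal.Quotient.eq_zero_iff_mem.2 h),
    fun k i => (hP' _).1 (hb' k) i, ?_, ?_⟩
  · intro t ht k
    have h3 : (fun k => Ideal.Quotient.mk q (t k)) = 0 := by
      apply hinj
      apply Subtype.ext
      rw [hβ]
      exact (Submodule.Quotient.mk_eq_zero P).2 ((hP _).2 ht)
    exact Ideal.Quotient.eq_zero_iff_mem.1 (congrFun h3 k)
  · intro y hy
    have hyN : P.mkQ y ∈ N := ⟨y, (hP' y).2 hy, rfl⟩
    choose t ht using fun k => Ideal.Quotient.mk_surjective (α ⟨_, hyN⟩ k)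
    refine ⟨t, fun i => ?_⟩
    have h3 := congrArg Subtype.val (h2 ⟨_, hyN⟩)
    have h4 : α ⟨_, hyN⟩ = fun k => Ideal.Quotient.mk q (t k) := funext fun k => (ht k).symm
    rw [h4, hβ, hsm] at h3
    change P.mkQ _ = c • P.mkQ y at h3
    rw [← map_smul, ← sub_eq_zero, ← map_sub] at h3
    exact (hP _).1 ((Submodule.Quotient.mk_eq_zero P).1 h3) i

variable {Γ : Type u} [Group Γ]

/-- The generic basis over the group ring. -/
theorem exists_gen_csub [IsNoetherianRing A] [Finite ι] (q : Ideal A) [q.IsPrime]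
    (J J' : ι → Ideal A) (hJ : ∀ i, ∀ a ∈ q, ∀ x ∈ J' i, a * x ∈ J i) (Γ : Type u) [Group Γ] :
    ∃ (c : A) (n : ℕ) (β : (Fin n → MonoidAlgebra A Γ) →ₗ[MonoidAlgebra A Γ]
      (ι → MonoidAlgebra A Γ)), c ∉ q ∧ (∀ v, β v ∈ csub Γ J') ∧
      (∀ v, β v ∈ csub Γ J ↔ v ∈ csub Γ fun _ => q) ∧
      ∀ y ∈ csub Γ J', ∃ v, β v - algebraMap A (MonoidAlgebra A Γ) c • y ∈ csub Γ J := by
  classical
  obtain ⟨c, n, b, hc, hb1, hb2, hb3⟩ := exists_gen_basis₂ q J J' hJ
  let β : (Fin n → MonoidAlgebra A Γ) →ₗ[MonoidAlgebra A Γ] (ι → MonoidAlgebra A Γ) :=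
    Fintype.linearCombination (MonoidAlgebra A Γ)
      fun k i => algebraMap A (MonoidAlgebra A Γ) (b k i)
  have hβ : ∀ v i g, (β v i).coeff g = ∑ k, (v k).coeff g * b k i := fun v i g =>
    bmap_coeff b v i g
  refine ⟨c, n, β, hc, ?_, ?_, ?_⟩
  · intro v i g
    rw [hβ]
    exact Ideal.sum_mem _ fun k _ => (J' i).mul_mem_left _ (hb1 k i)
  · intro v
    constructor
    · intro h k g
      refine hb2 (fun k => (v k).coeff g) (fun i => ?_) k
      have h1 := h i g
      rwa [hβ] at h1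
    · intro h i g
      rw [hβ]
      exact Ideal.sum_mem _ fun k _ => hJ i _ (h k g) _ (hb1 k i)
  · intro y hy
    have hex : ∀ g : Γ, ∃ t : Fin n → A, (∀ i, ∑ k, t k * b k i - c * (y i).coeff g ∈ J i) ∧
        ((∀ i, (y i).coeff g = 0) → t = 0) := by
      intro g
      by_cases hg : ∀ i, (y i).coeff g = 0
      · refine ⟨0, fun i => ?_, fun _ => rfl⟩
        rw [hg i, mul_zero, sub_zero]
        have h3 : ∑ k, (0 : Fin n → A) k * b k i = 0 :=
          Finset.sum_eq_zero fun k _ => zero_mul _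
        rw [h3]
        exact (J i).zero_mem
      · obtain ⟨t, ht⟩ := hb3 (fun i => (y i).coeff g) fun i => hy i g
        exact ⟨t, ht, fun h => absurd h hg⟩
    choose t ht ht0 using hex
    have _ : Fintype ι := Fintype.ofFinite ι
    let U : Finset Γ := Finset.univ.biUnion fun i => (y i).coeff.support
    have hU : ∀ g, g ∉ U → t g = 0 := by
      intro g hg
      refine ht0 g fun i => ?_
      by_contra hne
      exact hg (Finset.mem_biUnion.2 ⟨i, Finset.mem_univ i, Finsupp.mem_support_iff.2 hne⟩)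
    let v : Fin n → MonoidAlgebra A Γ := fun k => ∑ g ∈ U, MonoidAlgebra.single g (t g k)
    have hv : ∀ k g, (v k).coeff g = t g k := by
      intro k g
      change (∑ g ∈ U, MonoidAlgebra.single g (t g k)).coeff g = _
      rw [MonoidAlgebra.coeff_sum, Finsupp.finsetSum_apply]
      by_cases hg : g ∈ U
      · rw [Finset.sum_eq_single g]
        · rw [MonoidAlgebra.coeff_single, Finsupp.single_eq_same]
        · intro g' _ hne
          rw [MonoidAlgebra.coeff_single, Finsupp.single_eq_of_ne (Ne.symm hne)]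
        · exact fun h => absurd hg h
      · rw [hU g hg]
        refine Finset.sum_eq_zero fun g' hg' => ?_
        rw [MonoidAlgebra.coeff_single, Finsupp.single_eq_of_ne]
        rintro rfl
        exact hg hg'
    refine ⟨v, fun i g => ?_⟩
    rw [Pi.sub_apply]
    change (β v i).coeff g - ((algebraMap A (MonoidAlgebra A Γ) c • y) i).coeff g ∈ J i
    rw [hβ, Pi.smul_apply, smul_eq_mul, coeff_algebraMap_mul]
    have h4 : ∑ k, (v k).coeff g * b k i = ∑ k, t g k * b k i :=
      Finset.sum_congr rfl fun k _ => by rw [hv]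
    rw [h4]
    exact ht g i

end

end Pool.Agent.Lib.MP_551055_al.T4
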