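import Mathlib
import Pool.Agent.Lib.MP_551055_al.Trim.LS.Stmts
import Pool.Agent.Lib.MP_551055_al.Trim.T4.Csub
import Pool.Agent.Lib.MP_551055_al.Trim.T4.Gen

/-!
# Generic resolutions

`A` is a commutative ring, `q` a prime ideal, `D` a group. Submodules `N` of free `A[D]`-modules
which contain the vectors with coefficients in `q` and have generically (up to elements of `A`
outside of `q`) a finite free resolution over `(A / q)[D]`.
-/

set_option autoImplicit false

namespace Pool.Agent.Lib.MP_551055_al
end Pool.Agent.Lib.MP_551055_al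

namespace Pool.Agent.Lib.MP_551055_al.LS
end Pool.Agent.Lib.MP_551055_al.LS

namespace Pool.Agent.Lib.MP_551055_al.T4

open Pool.Agent.Lib.MP_551055_al

open Pool.Agent.Lib.MP_551055_al.LS

universe u v

/-- The kernels over the group algebras of `D` over fields are locally perfect, in the stable
form. -/
def FieldLPK (D : Type u) [Group D] : Prop :=
  ∀ (k : Type u) [Field k] (a b : ℕ)
    (φ : (Fin a → MonoidAlgebra k D) →ₗ[MonoidAlgebra k D] (Fin b → MonoidAlgebra k D))
    (s : Finset (Fin a → MonoidAlgebra k D)), (∀ x ∈ s, φ x = 0) →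
    ∃ (m : ℕ) (V : Submodule (MonoidAlgebra k D)
      ((Fin a → MonoidAlgebra k D) × (Fin m → MonoidAlgebra k D))),
      (∀ y ∈ V, φ y.1 = 0) ∧ (∀ x ∈ s, ((x, 0) : (Fin a → MonoidAlgebra k D) ×
        (Fin m → MonoidAlgebra k D)) ∈ V) ∧ ∃ d, FFR (MonoidAlgebra k D) d V

section

variable {A : Type u} [CommRing A]

/-- Generic finite free resolutions of length `n` of submodules of free modules. -/
def GRq (q : Ideal A) (D : Type u) [Group D] :
    ℕ → ∀ {ι : Type}, Submodule (MonoidAlgebra A D) (ι → MonoidAlgebra A D) → Prop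
  | 0, _, N => N ≤ csub D fun _ => q
  | n + 1, ι, N => ∃ (κ : Type) (_ : Fintype κ)
      (d : (κ → MonoidAlgebra A D) →ₗ[MonoidAlgebra A D] (ι → MonoidAlgebra A D)),
      (∀ v, d v ∈ N) ∧
      (∀ x ∈ N, ∃ c : A, c ∉ q ∧ ∃ v,
        d v - algebraMap A (MonoidAlgebra A D) c • x ∈ csub D fun _ => q) ∧
      GRq q D n (Submodule.comap d (csub D fun _ => q))

/-- Every finite subset is generically in the image of a map with a generic resolution. -/
def GenPq (q : Ideal A) (D : Type u) [Group D] (K : Type*) [AddCommGroup K]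
    [Module (MonoidAlgebra A D) K] : Prop :=
  ∀ s : Finset K, ∃ (ι : Type) (_ : Fintype ι) (m n : ℕ)
    (p : (ι → MonoidAlgebra A D) →ₗ[MonoidAlgebra A D]
      K × ((Fin m → MonoidAlgebra A D) ⧸ csub D fun _ => q)),
    (∀ v ∈ csub D fun _ => q, p v = 0) ∧ GRq q D n (LinearMap.ker p) ∧
    ∀ y ∈ s, ∃ c : A, c ∉ q ∧ ∃ v, p v = (algebraMap A (MonoidAlgebra A D) c • y, 0)

variable {D : Type u} [Group D] {q : Ideal A}

theorem alg_smul_mem_csub_iff {ι : Type} [hq : q.IsPrime] {c : A} (hc : c ∉ q)
    (v : ι → MonoidAlgebra A D) :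
    algebraMap A (MonoidAlgebra A D) c • v ∈ csub D (fun _ => q) ↔ v ∈ csub D fun _ => q := by
  have h : ∀ i d, ((algebraMap A (MonoidAlgebra A D) c • v) i).coeff d = c * (v i).coeff d := by
    intro i d
    rw [Pi.smul_apply, smul_eq_mul, coeff_algebraMap_mul]
  constructor
  · intro hv i d
    have h1 := hv i d
    rw [h] at h1
    exact (hq.mem_or_mem h1).resolve_left hc
  · intro hv i d
    rw [h]
    exact q.mul_mem_left _ (hv i d)

/-- Submodules with the same generic resolutions. -/
theorem GRq.of_torsion [hq : q.IsPrime] {n : ℕ} {ι : Type}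
    {N N' : Submodule (MonoidAlgebra A D) (ι → MonoidAlgebra A D)} (hN : N ≤ N')
    (h : ∀ x ∈ N', ∃ c : A, c ∉ q ∧ algebraMap A (MonoidAlgebra A D) c • x ∈ N)
    (hG : GRq q D n N') : GRq q D n N := by
  classical
  cases n with
  | zero => exact hN.trans hG
  | succ n =>
    obtain ⟨κ, iκ, d, h1, h2, h3⟩ := hG
    have h4 : ∀ l : κ, ∃ c : A, c ∉ q ∧
        algebraMap A (MonoidAlgebra A D) c • d (Pi.single l 1) ∈ N := fun l => h _ (h1 _)
    choose c hc hcN using h4
    obtain ⟨e, he⟩ : ∃ e, e = ∏ l, c l := ⟨_, rfl⟩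
    have heq : e ∉ q := by
      intro h5
      rw [he] at h5
      obtain ⟨l, _, hl⟩ := (Ideal.IsPrime.prod_mem_iff (p := q)).1 h5
      exact hc l hl
    have heN : ∀ l : κ, algebraMap A (MonoidAlgebra A D) e • d (Pi.single l 1) ∈ N := by
      intro l
      obtain ⟨r, hr⟩ : c l ∣ e := by
        rw [he]
        exact Finset.dvd_prod_of_mem c (Finset.mem_univ l)
      rw [hr, mul_comm, map_mul, mul_smul]
      exact N.smul_mem _ (hcN l)
    let d' : (κ → MonoidAlgebra A D) →ₗ[MonoidAlgebra A D] (ι → MonoidAlgebra A D) :=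
      { toFun := fun v => algebraMap A (MonoidAlgebra A D) e • d v
        map_add' := fun v w => by rw [map_add, smul_add]
        map_smul' := fun r v => by
          rw [map_smul, smul_smul, Algebra.commutes, ← smul_smul, RingHom.id_apply] }
    have hd' : ∀ v, d' v = algebraMap A (MonoidAlgebra A D) e • d v := fun _ => rfl
    refine ⟨κ, iκ, d', fun v => ?_, fun x hx => ?_, ?_⟩
    · rw [LinearMap.pi_apply_eq_sum_univ d' v]
      refine N.sum_mem fun l _ => N.smul_mem _ ?_
      have h5 : (fun j => if l = j then (1 : MonoidAlgebra A D) else 0) = Pi.single l 1 := by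
        funext j
        rw [Pi.single_apply]
        by_cases hj : l = j
        · rw [if_pos hj, if_pos hj.symm]
        · rw [if_neg hj, if_neg (Ne.symm hj)]
      rw [h5, hd']
      exact heN l
    · obtain ⟨b, hb, v, hv⟩ := h2 x (hN hx)
      refine ⟨e * b, fun h5 => (hq.mem_or_mem h5).elim heq hb, v, ?_⟩
      rw [hd', map_mul, mul_smul, ← smul_sub]
      exact (csub D fun _ => q).smul_mem _ hv
    · have h5 : Submodule.comap d' (csub D fun _ => q) = Submodule.comap d (csub D fun _ => q) := by
        ext v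
        rw [Submodule.mem_comap, Submodule.mem_comap, hd', alg_smul_mem_csub_iff heq]
      rw [h5]
      exact h3

/-- Additional coordinates. -/
theorem GRq.sum {n : ℕ} {ι τ : Type}
    {N : Submodule (MonoidAlgebra A D) (ι → MonoidAlgebra A D)}
    {N' : Submodule (MonoidAlgebra A D) (ι ⊕ τ → MonoidAlgebra A D)}
    (h : ∀ v, v ∈ N' ↔ v ∘ Sum.inl ∈ N ∧ v ∘ Sum.inr ∈ csub D fun _ => q)
    (hG : GRq q D n N) : GRq q D n N' := by
  cases n with
  | zero =>
    intro v hv i d
    obtain ⟨h1, h2⟩ := (h v).1 hv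
    rcases i with i | i
    · exact hG h1 i d
    · exact h2 i d
  | succ n =>
    obtain ⟨κ, iκ, d, h1, h2, h3⟩ := hG
    let d' : (κ → MonoidAlgebra A D) →ₗ[MonoidAlgebra A D] (ι ⊕ τ → MonoidAlgebra A D) :=
      { toFun := fun v => Sum.elim (d v) 0
        map_add' := fun v w => by
          funext j
          rcases j with j | j
          · simp
          · simp
        map_smul' := fun r v => by
          funext j
          rcases j with j | j
          · simp
          · simp }
    have hd1 : ∀ v, d' v ∘ Sum.inl = d v := fun _ => rfl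
    have hd2 : ∀ v, d' v ∘ Sum.inr = 0 := fun _ => rfl
    refine ⟨κ, iκ, d', fun v => ?_, fun x hx => ?_, ?_⟩
    · rw [h, hd1, hd2]
      exact ⟨h1 v, Submodule.zero_mem _⟩
    · obtain ⟨hx1, hx2⟩ := (h x).1 hx
      obtain ⟨c, hc, v, hv⟩ := h2 _ hx1
      refine ⟨c, hc, v, ?_⟩
      intro i g
      rcases i with i | i
      · exact hv i g
      · change (((0 : τ → MonoidAlgebra A D) i - algebraMap A (MonoidAlgebra A D) c •
          (x ∘ Sum.inr) i) : MonoidAlgebra A D).coeff g ∈ q
        rw [Pi.zero_apply, zero_sub]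
        have h4 : (-(algebraMap A (MonoidAlgebra A D) c • (x ∘ Sum.inr) i) :
            MonoidAlgebra A D).coeff g = -(c * ((x ∘ Sum.inr) i).coeff g) := by
          rw [← coeff_algebraMap_mul]
          rfl
        rw [h4]
        exact q.neg_mem (q.mul_mem_left _ (hx2 i g))
    · have h5 : Submodule.comap d' (csub D fun _ => q) = Submodule.comap d (csub D fun _ => q) := by
        ext v
        rw [Submodule.mem_comap, Submodule.mem_comap]
        constructor
        · intro hv i g
          exact hv (Sum.inl i) g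
        · intro hv i g
          rcases i with i | i
          · exact hv i g
          · change ((0 : MonoidAlgebra A D)).coeff g ∈ q
            exact q.zero_mem
      rw [h5]
      exact h3

end

end Pool.Agent.Lib.MP_551055_al.T4
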