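import Mathlib
import Pool.Agent.Lib.MP_551055_al.Trim.LS.Stmts
import Pool.Agent.Lib.MP_551055_al.Trim.T4.Alg
import Pool.Agent.Lib.MP_551055_al.Trim.T4.CA
import Pool.Agent.Lib.MP_551055_al.Trim.T4.Constr
import Pool.Agent.Lib.MP_551055_al.Trim.T4.Csub
import Pool.Agent.Lib.MP_551055_al.Trim.T4.GS
import Pool.Agent.Lib.MP_551055_al.Trim.T4.Gen
import Pool.Agent.Lib.MP_551055_al.Trim.T4.Ind
import Pool.Agent.Lib.MP_551055_al.Trim.T4.Ind0
import Pool.Agent.Lib.MP_551055_al.Trim.T4.Mods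
import Pool.Agent.Lib.MP_551055_al.Trim.T4.NGTri
import Pool.Agent.Lib.MP_551055_al.Trim.T4.OneStep
import Pool.Agent.Lib.MP_551055_al.Trim.T4.Perf
import Pool.Agent.Lib.MP_551055_al.Trim.T4.Tri
import Pool.Agent.Lib.MP_551055_al.Trim.T4.VStep
import Pool.Agent.Lib.MP_551055_al.Trim.T5.GRes

/-!
# Elimination of a part of the socle with a generic resolution
-/

set_option autoImplicit false

namespace Pool.Agent.Lib.MP_551055_al
end Pool.Agent.Lib.MP_551055_al

namespace Pool.Agent.Lib.MP_551055_al.LS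
end Pool.Agent.Lib.MP_551055_al.LS

namespace Pool.Agent.Lib.MP_551055_al.LD
end Pool.Agent.Lib.MP_551055_al.LD

namespace Pool.Agent.Lib.MP_551055_al.T4

open Pool.Agent.Lib.MP_551055_al

open Pool.Agent.Lib.MP_551055_al.LS

open Pool.Agent.Lib.MP_551055_al.LD

universe u

section

variable {A : Type u} [CommRing A] {G : Type u} [Group G] {D : Subgroup G}
  {M : Type u} [AddCommGroup M] [Module (MonoidAlgebra A D) M]

/-- A map to the socle with a generic resolution of length `n`, whose image contains generically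
the parts of the socle which have to be divided out. -/
structure VData (q : Ideal A) (n s : ℕ) (f : M →ₛₗ[incD D A] Ind A D M) {ι : Type}
    (p : (ι → MonoidAlgebra A D) →ₗ[MonoidAlgebra A D] M) : Prop where
  soc : ∀ v, p v ∈ Soc q f
  res : GRq q D n (LinearMap.ker p)
  img : ∀ j ≤ s, ∀ a ∈ q ^ (s - j), ∀ m ∈ gen f j, ∃ c : A, c ∉ q ∧
    ∃ v, p v = algebraMap A (MonoidAlgebra A D) (c * a) • m

theorem qcsub_le_ker {ι : Type} [Fintype ι] {q : Ideal A} {f : M →ₛₗ[incD D A] Ind A D M}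
    {p : (ι → MonoidAlgebra A D) →ₗ[MonoidAlgebra A D] M} (hp : ∀ v, p v ∈ Soc q f) :
    csub (D : Type u) (fun _ : ι => q) ≤ LinearMap.ker p := by
  have h1 : Killed (D := D) q (Soc q f) := by
    intro a ha m
    apply Subtype.ext
    exact (mem_Soc.1 m.2).1 a ha
  have h2 := csub_le_ker h1 (p.codRestrict (Soc q f) hp)
  intro v hv
  have h3 := h2 hv
  rw [LinearMap.mem_ker] at h3 ⊢
  exact congrArg Subtype.val h3

/-- One denominator for the image. -/
theorem img_uniform [IsNoetherianRing A] [Module.Finite (MonoidAlgebra A D) M] {q : Ideal A}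
    [hq : q.IsPrime] {s : ℕ} {f : M →ₛₗ[incD D A] Ind A D M}
    (V : Submodule (MonoidAlgebra A D) M)
    (h : ∀ j ≤ s, ∀ a ∈ q ^ (s - j), ∀ m ∈ gen f j, ∃ c : A, c ∉ q ∧
      algebraMap A (MonoidAlgebra A D) (c * a) • m ∈ V) :
    ∃ c : A, c ∉ q ∧ ∀ j ≤ s, ∀ a ∈ q ^ (s - j), ∀ m ∈ gen f j,
      algebraMap A (MonoidAlgebra A D) (c * a) • m ∈ V := by
  classical
  have h1 : ∀ j : ℕ, ∃ c : A, c ∉ q ∧ (j ≤ s → ∀ a ∈ q ^ (s - j), ∀ m ∈ gen f j,
      algebraMap A (MonoidAlgebra A D) (c * a) • m ∈ V) := by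
    intro j
    by_cases hj : j ≤ s
    · obtain ⟨t, ht1, ht2⟩ := exists_span_smul (q ^ (s - j)) (gen f j)
        (Ideal.fg_of_isNoetherianRing _) (gen_fg j)
      obtain ⟨c, hc, hct⟩ := exists_common_prime q (X := M)
        (p := fun c y => algebraMap A (MonoidAlgebra A D) c • y ∈ V)
        (fun c d y hcy => by
          rw [map_mul, mul_smul]
          exact V.smul_mem _ hcy) t (fun y hy => by
          obtain ⟨a, ha, m, hm, rfl⟩ := ht1 y hy
          obtain ⟨c, hc, hcm⟩ := h j hj a ha m hm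
          refine ⟨c, hc, ?_⟩
          rw [smul_smul, ← map_mul]
          exact hcm)
      refine ⟨c, hc, fun _ a ha m hm => ?_⟩
      rw [map_mul, mul_smul]
      have h2 := ht2 a ha m hm
      generalize algebraMap A (MonoidAlgebra A D) a • m = z at h2
      induction h2 using Submodule.span_induction with
      | mem z hz => exact hct z hz
      | zero =>
        rw [smul_zero]
        exact V.zero_mem
      | add z w _ _ hz hw =>
        rw [smul_add]
        exact V.add_mem hz hw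
      | smul r z _ hz =>
        rw [smul_smul, Algebra.commutes, ← smul_smul]
        exact V.smul_mem _ hz
    · exact ⟨1, fun h => (Ideal.IsPrime.ne_top hq) ((Ideal.eq_top_iff_one q).2 h),
        fun h => absurd h hj⟩
  choose c hc H using h1
  refine ⟨∏ j ∈ Finset.range (s + 1), c j, ?_, ?_⟩
  · intro h2
    obtain ⟨j, _, hj⟩ := (Ideal.IsPrime.prod_mem_iff (p := q)).1 h2
    exact hc j hj
  · intro j hj a ha m hm
    obtain ⟨r, hr⟩ : c j ∣ ∏ j ∈ Finset.range (s + 1), c j :=
      Finset.dvd_prod_of_mem c (Finset.mem_range.2 (Nat.lt_succ_of_le hj))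
    have h2 : (∏ j ∈ Finset.range (s + 1), c j) * a = r * (c j * a) := by
      rw [hr]
      ring
    rw [h2, map_mul, mul_smul]
    exact V.smul_mem _ (H j hj a ha m hm)

/-- Division by a generically free part of the socle. -/
theorem vdZero (K : K1C (MonoidAlgebra A G)) [IsNoetherianRing A]
    (hA : ∀ (N : Type u) [AddCommGroup N] [Module A N], Module.Finite A N → Perf A N)
    {I q : Ideal A} [hq : q.IsPrime] {s : ℕ} {f : M →ₛₗ[incD D A] Ind A D M}
    (hM : Perf (MonoidAlgebra A D) M) (hf : SNil f) (hI : Killed (D := D) I M) {ι : Type}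
    [Fintype ι] {p : (ι → MonoidAlgebra A D) →ₗ[MonoidAlgebra A D] M} (hp : VData q 0 s f p) :
    ∃ (M' : Type u) (_ : AddCommGroup M') (_ : Module (MonoidAlgebra A D) M')
      (f' : M' →ₛₗ[incD D A] Ind A D M'),
      Perf (MonoidAlgebra A D) M' ∧ SNil f' ∧ Killed (D := D) I M' ∧ Ord q s f' ∧
      (NGM K f' → NGM K f) := by
  classical
  have := hM.finite
  have hker : LinearMap.ker p = csub (D : Type u) fun _ => q :=
    le_antisymm hp.res (qcsub_le_ker hp.soc)
  let V : Submodule (MonoidAlgebra A D) M := LinearMap.range p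
  have hVP : Perf (MonoidAlgebra A D) V := by
    refine (perf_EJ hA fun _ : ι => q).congr ?_
    exact (Submodule.quotEquivOfEq _ _ hker.symm).trans p.quotKerEquivRange
  have hV0 : ∀ y ∈ V, f y = 0 := by
    rintro y ⟨v, rfl⟩
    exact (mem_Soc.1 (hp.soc v)).2
  obtain ⟨f', hf'⟩ := exists_quot f V (fun y hy x => by
    rw [hV0 y hy, Ind.zero_apply]
    exact V.zero_mem)
  obtain ⟨c, hc, hcV⟩ := img_uniform (q := q) (s := s) (f := f) V fun j hj a ha m hm => by
    obtain ⟨c, hc, v, hv⟩ := hp.img j hj a ha m hm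
    exact ⟨c, hc, v, hv⟩
  refine ⟨_, _, _, f', Perf.quot V hVP hM, SNil.of_surj hf' V.mkQ_surjective hf,
    Killed.quot hI V, ⟨c, hc, fun j hj a ha y hy => ?_⟩, fun hN => ?_⟩
  · obtain ⟨m, hm, rfl⟩ := hf'.gen_le_map V.mkQ_surjective j hy
    rw [← map_smul, Submodule.mkQ_apply, Submodule.Quotient.mk_eq_zero]
    exact hcV j hj a ha m hm
  · refine NGM.mid K (i := V.subtype) (q := V.mkQ) V.injective_subtype V.mkQ_surjective
      (exact_of_sub V) (fun m x => ?_) hf' (NGM.zero K hVP) hN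
    have h6 : f (V.subtype m) = 0 := hV0 m.1 m.2
    rw [h6]
    exact (map_zero V.subtype).symm

/-- The order of a product with a module with zero map killed by `q`. -/
theorem Ord.prodZ {q : Ideal A} {s : ℕ} {f : M →ₛₗ[incD D A] Ind A D M}
    (hf : Ord q s f) (hs : 1 ≤ s) (T : Type u) [AddCommGroup T] [Module (MonoidAlgebra A D) T]
    (hT : Killed (D := D) q T) : Ord q s (prodZ f T) := by
  obtain ⟨c, hc, H⟩ := hf
  refine ⟨c, hc, fun j hj a ha y hy => ?_⟩
  refine Prod.ext (H j hj a ha _ ((prodZ_fst f T).map_mem_gen hy)) ?_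
  change algebraMap A (MonoidAlgebra A D) (c * a) • y.2 = 0
  cases j with
  | zero =>
    rw [Nat.sub_zero] at ha
    exact hT _ (q.mul_mem_left _ (Ideal.pow_le_self (by omega) ha)) _
  | succ j => rw [gen_prodZ f T j y hy, smul_zero]

/-- The triangular module of order `s` with a map which is generically surjective. -/
theorem exists_tri_map [IsNoetherianRing A] {I q : Ideal A} [hq : q.IsPrime] {s : ℕ}
    {f : M →ₛₗ[incD D A] Ind A D M} (hp : Perf (MonoidAlgebra A D) M) (hs : SNil f)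
    (hk : Killed (D := D) I M) (ho : Ord q s f) :
    ∃ (ι : Type) (_ : Fintype ι) (ρ : ι → ℕ) (F : ι → Ind A D (ι → MonoidAlgebra A D))
      (g : ι → M) (c : A) (hF : Trian ρ F)
      (h : EJ A D (fun i => q ^ (s - ρ i) ⊔ I) →ₗ[MonoidAlgebra A D] M),
      c ∉ q ∧ (∀ x, c * (c * x) ∈ I → c * x ∈ I) ∧ (∀ i, g i ∈ gen f (ρ i)) ∧
      Function.Surjective (lin (A := A) (D := D) g) ∧ IsHom (semi F) f (lin g) ∧
      IsHom (fE hF (monoI_pow q I s ρ)) f h ∧
      ∀ v, h ((csub (D : Type u) fun i => q ^ (s - ρ i) ⊔ I).mkQ v) =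
        algebraMap A (MonoidAlgebra A D) c • lin g v := by
  classical
  have := hp.finite
  obtain ⟨ι, iι, ρ, F, g, hF, hg, hgs, hgh⟩ := exists_tri_cover hs
  obtain ⟨b, hb, hord⟩ := ho
  obtain ⟨m, hm, hc⟩ := exists_pow_colon I b
  have hcq : b ^ m ∉ q := fun h => hb (hq.mem_of_pow_mem m h)
  have hord' : ∀ j ≤ s, ∀ a ∈ q ^ (s - j), ∀ y ∈ gen f j,
      algebraMap A (MonoidAlgebra A D) (b ^ m * a) • y = 0 := by
    intro j hj a ha y hy
    obtain ⟨k, rfl⟩ := Nat.exists_eq_add_of_le hm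
    have h1 : b ^ (1 + k) * a = b ^ k * (b * a) := by ring
    rw [h1, map_mul, mul_smul, hord j hj a ha y hy, smul_zero]
  have hgi : ∀ i, ∀ a ∈ q ^ (s - ρ i) ⊔ I,
      algebraMap A (MonoidAlgebra A D) (b ^ m * a) • g i = 0 := by
    intro i a ha
    obtain ⟨a₁, h₁, a₂, h₂, rfl⟩ := Submodule.mem_sup.1 ha
    have e₂ : algebraMap A (MonoidAlgebra A D) (b ^ m * a₂) • g i = 0 :=
      hk _ (I.mul_mem_left _ h₂) _
    have e₁ : algebraMap A (MonoidAlgebra A D) (b ^ m * a₁) • g i = 0 := by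
      rcases le_or_gt (ρ i) s with h | h
      · exact hord' _ h _ h₁ _ (hg i)
      · refine hord' s le_rfl _ ?_ _ (gen_anti h.le (hg i))
        rw [Nat.sub_self, pow_zero, Ideal.one_eq_top]
        trivial
    rw [mul_add, map_add, add_smul, e₁, e₂, add_zero]
  have hker : csub (D : Type u) (fun i => q ^ (s - ρ i) ⊔ I) ≤ LinearMap.ker
      (cmul (T := MonoidAlgebra A D) (b ^ m) M ∘ₗ lin g) := by
    intro v hv
    rw [LinearMap.mem_ker, LinearMap.comp_apply, cmul_apply, lin_apply, Finset.smul_sum]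
    refine Finset.sum_eq_zero fun i _ => ?_
    refine coeff_induction (I := q ^ (s - ρ i) ⊔ I)
      (P := fun r => algebraMap A (MonoidAlgebra A D) (b ^ m) • r • g i = 0) ?_ ?_ ?_ (v i) (hv i)
    · rw [zero_smul, smul_zero]
    · intro r t hr ht
      rw [add_smul, smul_add, hr, ht, add_zero]
    · intro d a ha
      have h1 : (MonoidAlgebra.single d a : MonoidAlgebra A D) =
          MonoidAlgebra.single d 1 * algebraMap A (MonoidAlgebra A D) a := by
        rw [algebraMap_eq_single, MonoidAlgebra.single_mul_single, mul_one, one_mul]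
      rw [h1, smul_smul, ← mul_assoc, Algebra.commutes, mul_assoc, ← map_mul, mul_smul,
        hgi i a ha, smul_zero]
  exact ⟨ι, iι, ρ, F, g, b ^ m, hF, (csub (D : Type u) fun i => q ^ (s - ρ i) ⊔ I).liftQ _ hker,
    hcq, hc, hg, hgs, hgh, (hgh.smul (b ^ m)).liftQ _ (semi_stable hF (monoI_pow q I s ρ)) _,
    fun _ => rfl⟩

end

end Pool.Agent.Lib.MP_551055_al.T4
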