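import Mathlib
import Pool.Agent.Lib.MP_551055_al.Trim.Descent
import Pool.Agent.Lib.MP_551055_al.Trim.LD.NG
import Pool.Agent.Lib.MP_551055_al.Trim.LS.Pos
import Pool.Agent.Lib.MP_551055_al.Trim.LS.Stmts
import Pool.Agent.Lib.MP_551055_al.Trim.T4.Alg
import Pool.Agent.Lib.MP_551055_al.Trim.T4.Constr
import Pool.Agent.Lib.MP_551055_al.Trim.T4.Csub
import Pool.Agent.Lib.MP_551055_al.Trim.T4.GS
import Pool.Agent.Lib.MP_551055_al.Trim.T4.Gen
import Pool.Agent.Lib.MP_551055_al.Trim.T4.Ind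
import Pool.Agent.Lib.MP_551055_al.Trim.T4.Ind0
import Pool.Agent.Lib.MP_551055_al.Trim.T4.Mods
import Pool.Agent.Lib.MP_551055_al.Trim.T4.NGTri
import Pool.Agent.Lib.MP_551055_al.Trim.T4.Perf
import Pool.Agent.Lib.MP_551055_al.Trim.T4.Tri
import Pool.Agent.Lib.MP_551055_al.Trim.T4.VStep
import Pool.Agent.Lib.MP_551055_al.Trim.T5.Basis
import Pool.Agent.Lib.MP_551055_al.Trim.T5.GRes
import Pool.Agent.Lib.MP_551055_al.Trim.T5.VData

/-!
# Shortening the generic resolution
-/

set_option autoImplicit false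

namespace Pool.Agent.Lib.MP_551055_al
end Pool.Agent.Lib.MP_551055_al

namespace Pool.Agent.Lib.MP_551055_al.LS
end Pool.Agent.Lib.MP_551055_al.LS

namespace Pool.Agent.Lib.MP_551055_al.LD
end Pool.Agent.Lib.MP_551055_al.LD

namespace Pool.Agent.Lib.MP_551055_al.T4

open Pool.Agent.Lib.MP_551055_al

open Pool.Agent.Lib.MP_551055_al.LS

open Pool.Agent.Lib.MP_551055_al.LD

universe u

section

variable {A : Type u} [CommRing A] {G : Type u} [Group G] {D : Subgroup G}
  {M : Type u} [AddCommGroup M] [Module (MonoidAlgebra A D) M]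
  {ι : Type} {ρ : ι → ℕ} {F : ι → Ind A D (ι → MonoidAlgebra A D)}

theorem as_mul (a b : A) (m : M) : algebraMap A (MonoidAlgebra A D) (a * b) • m =
    algebraMap A (MonoidAlgebra A D) a • algebraMap A (MonoidAlgebra A D) b • m := by
  rw [map_mul, mul_smul]

theorem as_comm (a b : A) (m : M) :
    algebraMap A (MonoidAlgebra A D) a • algebraMap A (MonoidAlgebra A D) b • m =
      algebraMap A (MonoidAlgebra A D) b • algebraMap A (MonoidAlgebra A D) a • m := by
  rw [← as_mul, ← as_mul, mul_comm]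

theorem as_smul (a : A) (r : MonoidAlgebra A D) (m : M) :
    algebraMap A (MonoidAlgebra A D) a • r • m = r • algebraMap A (MonoidAlgebra A D) a • m := by
  rw [smul_smul, smul_smul, Algebra.commutes]

theorem killed_EJ_const {q : Ideal A} {κ : Type} :
    Killed (D := D) q ((κ → MonoidAlgebra A D) ⧸ csub (D : Type u) fun _ : κ => q) :=
  EJ_killed (J := fun _ : κ => q) fun _ => le_rfl

/-- The triangular structure kills the vectors with coefficients in `q ^ (s - ρ i) + I`. -/
theorem semi_mem_csub [Fintype ι] (hF : Trian ρ F) (q I : Ideal A) (s : ℕ)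
    (y : ι → MonoidAlgebra A D) (hy : y ∈ csub (D : Type u) fun i => q ^ (s - ρ i) ⊔ I)
    (x : G ⧸ D) : semi F y x ∈ csub (D : Type u) fun i => q ^ (s + 1 - ρ i) ⊔ I := by
  rw [semi_apply]
  have h : ∑ i, incD D A (y i) • F i ∈
      Ind.sub (csub (D : Type u) fun i => q ^ (s + 1 - ρ i) ⊔ I) := by
    refine Submodule.sum_mem _ fun i _ => ?_
    refine fun x => smul_mem_csub (I := q ^ (s - ρ i) ⊔ I) (fun g => ?_) (fun x k h => ?_) x
    · by_cases hg : g ∈ D
      · have h1 := inc_coeff_apply D.subtype Subtype.val_injective (y i) ⟨g, hg⟩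
        change (inc A D.subtype (y i)).coeff g = (y i).coeff ⟨g, hg⟩ at h1
        change (inc A D.subtype (y i)).coeff g ∈ _
        rw [h1]
        exact hy i _
      · have h1 : (inc A D.subtype (y i)).coeff g = 0 := by
          apply inc_coeff_of_notMem
          rintro ⟨d, hd⟩
          exact hg (hd ▸ d.2)
        change (inc A D.subtype (y i)).coeff g ∈ _
        rw [h1]
        exact Submodule.zero_mem _
    · have h2 := hF i x k h
      exact sup_le_sup_right (Ideal.pow_le_pow_right (by omega)) _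
  exact h x

/-- The image of the vectors with coefficients in `q ^ (s - ρ i) + I`. -/
theorem exists_img [Fintype ι] {I q : Ideal A} [hq : q.IsPrime] {s : ℕ}
    {f : M →ₛₗ[incD D A] Ind A D M} (hk : Killed (D := D) I M) {κ : Type} [Fintype κ]
    {p : (κ → MonoidAlgebra A D) →ₗ[MonoidAlgebra A D] M} {n : ℕ} (hv : VData q n s f p)
    {g : ι → M} (hg : ∀ i, g i ∈ gen f (ρ i)) (y : ι → MonoidAlgebra A D)
    (hy : y ∈ csub (D : Type u) fun i => q ^ (s - ρ i) ⊔ I) :
    ∃ c : A, c ∉ q ∧ ∃ v, p v = algebraMap A (MonoidAlgebra A D) c • lin g y := by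
  classical
  have h1 : ∀ i, ∀ a ∈ q ^ (s - ρ i) ⊔ I, ∃ c : A, c ∉ q ∧
      ∃ v, p v = algebraMap A (MonoidAlgebra A D) (c * a) • g i := by
    intro i a ha
    obtain ⟨a₁, h₁, a₂, h₂, rfl⟩ := Submodule.mem_sup.1 ha
    have h3 : ∃ c : A, c ∉ q ∧ ∃ v, p v = algebraMap A (MonoidAlgebra A D) (c * a₁) • g i := by
      rcases le_or_gt (ρ i) s with h | h
      · exact hv.img _ h _ h₁ _ (hg i)
      · refine hv.img s le_rfl _ ?_ _ (gen_anti h.le (hg i))
        rw [Nat.sub_self, pow_zero, Ideal.one_eq_top]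
        trivial
    obtain ⟨c, hc, v, hv⟩ := h3
    refine ⟨c, hc, v, ?_⟩
    have h4 : algebraMap A (MonoidAlgebra A D) (c * a₂) • g i = 0 :=
      hk _ (I.mul_mem_left _ h₂) _
    rw [mul_add, map_add, add_smul, h4, add_zero, hv]
  have h2 : ∀ i, ∃ c : A, c ∉ q ∧
      ∃ v, p v = algebraMap A (MonoidAlgebra A D) c • (y i • g i) := by
    intro i
    refine coeff_induction (I := q ^ (s - ρ i) ⊔ I)
      (P := fun r => ∃ c : A, c ∉ q ∧
        ∃ v, p v = algebraMap A (MonoidAlgebra A D) c • (r • g i)) ?_ ?_ ?_ (y i) (hy i)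
    · refine ⟨1, fun h => (Ideal.IsPrime.ne_top hq) ((Ideal.eq_top_iff_one q).2 h), 0, ?_⟩
      rw [map_zero, zero_smul, smul_zero]
    · rintro r t ⟨c, hc, v, hv⟩ ⟨c', hc', v', hv'⟩
      refine ⟨c * c', fun h => (hq.mem_or_mem h).elim hc hc',
        algebraMap A (MonoidAlgebra A D) c' • v + algebraMap A (MonoidAlgebra A D) c • v', ?_⟩
      rw [map_add, map_smul, map_smul, hv, hv', as_comm c' c, ← smul_add, ← smul_add,
        ← add_smul, as_mul]
    · intro d a ha
      obtain ⟨c, hc, v, hv⟩ := h1 i a ha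
      refine ⟨c, hc, (MonoidAlgebra.single d (1 : A) : MonoidAlgebra A D) • v, ?_⟩
      have h5 : (MonoidAlgebra.single d a : MonoidAlgebra A D) =
          MonoidAlgebra.single d 1 * algebraMap A (MonoidAlgebra A D) a := by
        rw [algebraMap_eq_single, MonoidAlgebra.single_mul_single, mul_one, one_mul]
      rw [map_smul, hv, h5, mul_smul, as_mul, as_smul c (MonoidAlgebra.single d 1)]
  have h3 : ∀ T : Finset ι, ∃ c : A, c ∉ q ∧
      ∃ v, p v = algebraMap A (MonoidAlgebra A D) c • ∑ i ∈ T, y i • g i := by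
    intro T
    induction T using Finset.induction_on with
    | empty =>
      refine ⟨1, fun h => (Ideal.IsPrime.ne_top hq) ((Ideal.eq_top_iff_one q).2 h), 0, ?_⟩
      rw [map_zero, Finset.sum_empty, smul_zero]
    | insert i T hi ih =>
      obtain ⟨c, hc, v, hv⟩ := h2 i
      obtain ⟨c', hc', v', hv'⟩ := ih
      refine ⟨c * c', fun h => (hq.mem_or_mem h).elim hc hc',
        algebraMap A (MonoidAlgebra A D) c' • v + algebraMap A (MonoidAlgebra A D) c • v', ?_⟩
      rw [map_add, map_smul, map_smul, hv, hv', as_comm c' c, ← smul_add, ← smul_add,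
        Finset.sum_insert hi, as_mul]
  exact h3 Finset.univ

/-- Shortening the generic resolution. -/
theorem vdStep (K : K1C (MonoidAlgebra A G)) [IsNoetherianRing A]
    (hA : ∀ (N : Type u) [AddCommGroup N] [Module A N], Module.Finite A N → Perf A N)
    {I q : Ideal A} [hq : q.IsPrime] (hIq : I ≤ q) {s : ℕ} (hs1 : 1 ≤ s)
    {f : M →ₛₗ[incD D A] Ind A D M} (hM : Perf (MonoidAlgebra A D) M) (hf : SNil f)
    (hI : Killed (D := D) I M) (ho : Ord q (s + 1) f) {n : ℕ} {ι₀ : Type} [Fintype ι₀]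
    {p : (ι₀ → MonoidAlgebra A D) →ₗ[MonoidAlgebra A D] M} (hv : VData q (n + 1) s f p) :
    ∃ (W : Type u) (_ : AddCommGroup W) (_ : Module (MonoidAlgebra A D) W)
      (fW : W →ₛₗ[incD D A] Ind A D W) (ι₁ : Type) (_ : Fintype ι₁)
      (p' : (ι₁ → MonoidAlgebra A D) →ₗ[MonoidAlgebra A D] W),
      Perf (MonoidAlgebra A D) W ∧ SNil fW ∧ Killed (D := D) I W ∧ Ord q (s + 1) fW ∧
      VData q n s fW p' ∧ (NGM K fW → NGM K f) := by
  classical
  obtain ⟨ι, iι, ρ, F, g, c, hF, h, hcq, hcI, hg, hgs, hgh, hh, hhc⟩ :=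
    exists_tri_map hM hf hI ho
  let J : ι → Ideal A := fun i => q ^ (s + 1 - ρ i) ⊔ I
  let J' : ι → Ideal A := fun i => q ^ (s - ρ i) ⊔ I
  let CJ := csub (D : Type u) J
  let Cq := csub (D : Type u) fun _ : ι₀ => q
  -- the module `N₁ = E × F₀`
  let F₀ := (ι₀ → MonoidAlgebra A D) ⧸ Cq
  let pb : F₀ →ₗ[MonoidAlgebra A D] M := Cq.liftQ p (qcsub_le_ker hv.soc)
  have hpb : ∀ v, pb (Cq.mkQ v) = p v := fun _ => rfl
  have hfp : ∀ y, f (pb y) = 0 := by
    intro y
    obtain ⟨v, rfl⟩ := Cq.mkQ_surjective y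
    exact (mem_Soc.1 (hv.soc v)).2
  let f₁ := prodZ (fE hF (monoI_pow q I (s + 1) ρ)) F₀
  let h₁ : (EJ A D J × F₀) →ₗ[MonoidAlgebra A D] M := h.coprod pb
  have hh₁a : ∀ e y, h₁ (e, y) = h e + pb y := fun _ _ => rfl
  have hh₁ : IsHom f₁ f h₁ := by
    intro y x
    have h2 : f₁ y x = ((fE hF (monoI_pow q I (s + 1) ρ)) y.1 x, 0) := prodZ_apply _ _ _ _
    rw [h2]
    change f (h y.1 + pb y.2) x = h ((fE hF (monoI_pow q I (s + 1) ρ)) y.1 x) + pb 0
    rw [map_add, hfp, add_zero, map_zero, add_zero]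
    exact hh y.1 x
  let l : (ι → MonoidAlgebra A D) →ₗ[MonoidAlgebra A D] EJ A D J × F₀ :=
    LinearMap.inl (MonoidAlgebra A D) (EJ A D J) F₀ ∘ₗ CJ.mkQ
  have hl : IsHom (semi F) f₁ l := (prodZ_inl _ F₀).comp (fE_isHom hF (monoI_pow q I (s + 1) ρ))
  have hlg : ∀ v, h₁ (l v) = algebraMap A (MonoidAlgebra A D) c • lin g v := by
    intro v
    change h (CJ.mkQ v) + pb 0 = _
    rw [map_zero, add_zero]
    exact hhc v
  have kF₀ : Killed (D := D) q F₀ := killed_EJ_const
  have pF₀ : Perf (MonoidAlgebra A D) F₀ := perf_EJ hA fun _ : ι₀ => q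
  have kN₁ : Killed (D := D) I (EJ A D J × F₀) :=
    Killed.prod (EJ_killed fun i => le_sup_right) (Killed.mono hIq kF₀)
  have oN₁ : Ord q (s + 1) f₁ :=
    Ord.prodZ (fE_ord (Ideal.IsPrime.ne_top hq) hF (monoI_pow q I (s + 1) ρ)) (by omega) F₀ kF₀
  obtain ⟨W, i1, i2, fW, θ, pW, sW, kW, hθ, hθ0, hθk, hθr, hN, _⟩ :=
    gs_step K hcI hF h₁ hh₁ l hl (lin g) hgh hgs hlg kN₁ hI ((perf_EJ hA J).prod pF₀) hM
      ((fE_snil hF (monoI_pow q I (s + 1) ρ)).prodZ F₀) (perf_EJ hA _) (perf_EJ hA _)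
      (ngm_fE hA hF _ K) (ngm_fE hA hF _ K)
  have hcc : c * c ∉ q := fun h => (hq.mem_or_mem h).elim hcq hcq
  have nN₁ : NGM K f₁ := by
    refine NGM.mid K (i := LinearMap.inl (MonoidAlgebra A D) (EJ A D J) F₀)
      (q := LinearMap.snd (MonoidAlgebra A D) (EJ A D J) F₀) LinearMap.inl_injective
      LinearMap.snd_surjective (fun y => ⟨fun h => ⟨y.1, Prod.ext rfl h.symm⟩, ?_⟩)
      (prodZ_inl _ F₀) (prodZ_snd _ F₀) (ngm_fE hA hF _ K) (NGM.zero K pF₀)
    rintro ⟨x, rfl⟩
    rfl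
  -- the generic resolution
  obtain ⟨κ, iκ, d, hd1, hd2, hd3⟩ := hv.res
  -- the generic basis of `J' / J`
  obtain ⟨cb, r, β, hcb, hβ1, hβ2, hβ3⟩ := exists_gen_csub q J J' (fun i a ha x hx => by
    obtain ⟨x₁, h₁, x₂, h₂, rfl⟩ := Submodule.mem_sup.1 hx
    rw [mul_add]
    refine Submodule.add_mem _ (Ideal.mem_sup_left ?_) (Ideal.mem_sup_right (I.mul_mem_left _ h₂))
    refine Ideal.pow_le_pow_right (show s + 1 - ρ i ≤ s - ρ i + 1 by omega) ?_
    rw [pow_succ']
    exact Ideal.mul_mem_mul ha h₁) (D : Type u)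
  -- preimages of the basis elements
  obtain ⟨c', hc', hv'⟩ : ∃ c' : A, c' ∉ q ∧ ∀ k ∈ (Finset.univ : Finset (Fin r)),
      ∃ v, p v = algebraMap A (MonoidAlgebra A D) c' • lin g (β (Pi.single k 1)) :=
    exists_common_prime q (X := Fin r)
      (p := fun c' k => ∃ v, p v = algebraMap A (MonoidAlgebra A D) c' • lin g (β (Pi.single k 1)))
      (fun c d k hck => by
        obtain ⟨v, hv⟩ := hck
        refine ⟨algebraMap A (MonoidAlgebra A D) d • v, ?_⟩
        rw [map_smul, hv, smul_smul, ← map_mul]) Finset.univ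
      (fun k _ => exists_img hI hv hg _ (hβ1 _))
  choose v₀ hv₀ using fun k => hv' k (Finset.mem_univ k)
  let vL : (Fin r → MonoidAlgebra A D) →ₗ[MonoidAlgebra A D] (ι₀ → MonoidAlgebra A D) := lin v₀
  have hpvL : ∀ t, p (vL t) = algebraMap A (MonoidAlgebra A D) c' • lin g (β t) := by
    intro t
    have h2 : t = ∑ k, t k • (Pi.single k 1 : Fin r → MonoidAlgebra A D) := by
      funext l
      rw [Finset.sum_apply, Finset.sum_eq_single l]
      · rw [Pi.smul_apply, Pi.single_eq_same, smul_eq_mul, mul_one]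
      · intro i _ hi
        rw [Pi.smul_apply, Pi.single_eq_of_ne (Ne.symm hi), smul_zero]
      · intro h
        exact absurd (Finset.mem_univ l) h
    have h3 : p (vL t) = ∑ k, t k • p (v₀ k) := by
      change p (∑ k, t k • v₀ k) = _
      rw [map_sum]
      exact Finset.sum_congr rfl fun k _ => map_smul _ _ _
    rw [h3]
    conv_rhs => rw [h2]
    rw [map_sum, map_sum, Finset.smul_sum]
    refine Finset.sum_congr rfl fun k _ => ?_
    rw [map_smul, map_smul, hv₀, smul_smul, smul_smul, Algebra.commutes]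
  -- the map `η`
  let η : (κ ⊕ Fin r → MonoidAlgebra A D) →ₗ[MonoidAlgebra A D] EJ A D J × F₀ :=
    LinearMap.prod
      (cmul (T := MonoidAlgebra A D) c' (EJ A D J) ∘ₗ CJ.mkQ ∘ₗ β ∘ₗ
        LinearMap.funLeft (MonoidAlgebra A D) (MonoidAlgebra A D) Sum.inr)
      (Cq.mkQ ∘ₗ d ∘ₗ LinearMap.funLeft (MonoidAlgebra A D) (MonoidAlgebra A D) Sum.inl -
        cmul (T := MonoidAlgebra A D) c F₀ ∘ₗ Cq.mkQ ∘ₗ vL ∘ₗ
          LinearMap.funLeft (MonoidAlgebra A D) (MonoidAlgebra A D) Sum.inr)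
  have hη1 : ∀ v, (η v).1 = algebraMap A (MonoidAlgebra A D) c' • CJ.mkQ (β (v ∘ Sum.inr)) :=
    fun _ => rfl
  have hη2 : ∀ v, (η v).2 = Cq.mkQ (d (v ∘ Sum.inl)) -
      algebraMap A (MonoidAlgebra A D) c • Cq.mkQ (vL (v ∘ Sum.inr)) := fun _ => rfl
  have hβJ : ∀ t, h (CJ.mkQ (β t)) = algebraMap A (MonoidAlgebra A D) c • lin g (β t) :=
    fun t => hhc _
  have hη0 : ∀ v, h₁ (η v) = 0 := by
    intro v
    have h2 : h₁ (η v) = h (η v).1 + pb (η v).2 := rfl
    rw [h2, hη1, hη2, map_smul, hβJ, map_sub, hpb, map_smul, hpb, hpvL,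
      LinearMap.mem_ker.1 (hd1 _), zero_sub, smul_smul, smul_smul, ← map_mul, ← map_mul,
      mul_comm c' c]
    exact add_neg_cancel _
  have hηq : ∀ a ∈ q, ∀ v, algebraMap A (MonoidAlgebra A D) a • η v = 0 := by
    intro a ha v
    refine Prod.ext ?_ (kF₀ a ha _)
    change algebraMap A (MonoidAlgebra A D) a • (η v).1 = 0
    have h2 : algebraMap A (MonoidAlgebra A D) a • CJ.mkQ (β (v ∘ Sum.inr)) = 0 := by
      rw [← map_smul, ← map_smul]
      refine (Submodule.Quotient.mk_eq_zero _).2 ((hβ2 _).2 fun k g => ?_)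
      rw [Pi.smul_apply, smul_eq_mul, coeff_algebraMap_mul]
      exact q.mul_mem_right _ ha
    rw [hη1, as_comm, h2, smul_zero]
  have hηf : ∀ v, f₁ (η v) = 0 := by
    intro v
    apply Ind.ext
    intro x
    have h2 : f₁ (η v) x = ((fE hF (monoI_pow q I (s + 1) ρ)) (η v).1 x, 0) :=
      prodZ_apply _ _ _ _
    rw [h2, hη1, ← map_smul, fE_isHom hF (monoI_pow q I (s + 1) ρ)]
    have h3 : CJ.mkQ (semi F (algebraMap A (MonoidAlgebra A D) c' • β (v ∘ Sum.inr)) x) = 0 := by
      rw [Submodule.mkQ_apply, Submodule.Quotient.mk_eq_zero]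
      exact semi_mem_csub hF q I s _ (Submodule.smul_mem _ _ (hβ1 _)) x
    rw [h3]
    rfl
  -- the lift
  choose w hw using fun z : κ ⊕ Fin r => hθr (η (Pi.single z 1)) (hη0 _)
  have hwsoc : ∀ z, algebraMap A (MonoidAlgebra A D) (c * c) • w z ∈ Soc q fW := by
    intro z
    rw [mem_Soc]
    refine ⟨fun a ha => ?_, ?_⟩
    · rw [smul_smul, ← map_mul, mul_comm, map_mul, mul_smul]
      apply hθk
      rw [map_smul, hw, smul_smul, ← map_mul, mul_comm, map_mul, mul_smul, hηq a ha, smul_zero]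
    · apply Ind.ext
      intro x
      rw [LinearMap.map_smulₛₗ, incD_algebraMap, Ind.alg_smul_apply, Ind.zero_apply]
      apply hθk
      rw [← hθ, hw, LinearMap.map_smulₛₗ, hηf, smul_zero, Ind.zero_apply]
  let p' : (κ ⊕ Fin r → MonoidAlgebra A D) →ₗ[MonoidAlgebra A D] W :=
    lin fun z => algebraMap A (MonoidAlgebra A D) (c * c) • w z
  have hθp : ∀ v, θ (p' v) = algebraMap A (MonoidAlgebra A D) (c * c * c) • η v := by
    intro v
    have h2 : v = ∑ z, v z • (Pi.single z 1 : κ ⊕ Fin r → MonoidAlgebra A D) := by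
      funext l
      rw [Finset.sum_apply, Finset.sum_eq_single l]
      · rw [Pi.smul_apply, Pi.single_eq_same, smul_eq_mul, mul_one]
      · intro i _ hi
        rw [Pi.smul_apply, Pi.single_eq_of_ne (Ne.symm hi), smul_zero]
      · intro h
        exact absurd (Finset.mem_univ l) h
    change θ (∑ z, v z • algebraMap A (MonoidAlgebra A D) (c * c) • w z) = _
    conv_rhs => rw [h2]
    rw [map_sum, map_sum, Finset.smul_sum]
    refine Finset.sum_congr rfl fun z _ => ?_
    rw [map_smul, map_smul, map_smul, hw, smul_smul _ _ (η _), ← map_mul, smul_smul, smul_smul,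
      Algebra.commutes]
  have hp'soc : ∀ v, p' v ∈ Soc q fW := by
    intro v
    exact Submodule.sum_mem _ fun z _ => Submodule.smul_mem _ _ (hwsoc z)
  have hC : c * c * c ∉ q := fun h => (hq.mem_or_mem h).elim hcc hcq
  have hvLq : ∀ t ∈ csub (D : Type u) fun _ : Fin r => q, Cq.mkQ (vL t) = 0 := by
    intro t ht
    change Cq.mkQ (∑ k, t k • v₀ k) = 0
    rw [map_sum]
    refine Finset.sum_eq_zero fun k _ => ?_
    rw [map_smul]
    exact smul_eq_zero_of_coeff kF₀ _ (ht k) _
  refine ⟨W, i1, i2, fW, κ ⊕ Fin r, inferInstance, p', pW, sW, kW,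
    Ord.of_hom hθ hcc hθk oN₁, ⟨hp'soc, ?_, ?_⟩, fun h => hN h nN₁⟩
  · -- the generic resolution
    let N' : Submodule (MonoidAlgebra A D) (κ ⊕ Fin r → MonoidAlgebra A D) :=
      { carrier := {v | v ∘ Sum.inl ∈ Submodule.comap d Cq ∧
          v ∘ Sum.inr ∈ csub (D : Type u) fun _ : Fin r => q}
        add_mem' := fun h h' => ⟨Submodule.add_mem _ h.1 h'.1, Submodule.add_mem _ h.2 h'.2⟩
        zero_mem' := ⟨Submodule.zero_mem _, Submodule.zero_mem _⟩
        smul_mem' := fun r _ h => ⟨Submodule.smul_mem _ r h.1, Submodule.smul_mem _ r h.2⟩ }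
    have hN' : ∀ v, v ∈ N' ↔ v ∘ Sum.inl ∈ Submodule.comap d Cq ∧
        v ∘ Sum.inr ∈ csub (D : Type u) fun _ : Fin r => q := fun _ => Iff.rfl
    refine GRq.of_torsion (N' := N') ?_ ?_ (GRq.sum hN' hd3)
    · intro v hv
      rw [LinearMap.mem_ker] at hv
      have h2 : algebraMap A (MonoidAlgebra A D) (c * c * c) • η v = 0 := by
        rw [← hθp, hv, map_zero]
      have h3 : algebraMap A (MonoidAlgebra A D) (c * c * c) • (η v).1 = 0 :=
        congrArg Prod.fst h2
      have h4 : algebraMap A (MonoidAlgebra A D) (c * c * c) • (η v).2 = 0 :=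
        congrArg Prod.snd h2
      have h5 : v ∘ Sum.inr ∈ csub (D : Type u) fun _ : Fin r => q := by
        rw [hη1, smul_smul, ← map_mul, ← map_smul, ← map_smul, Submodule.mkQ_apply,
          Submodule.Quotient.mk_eq_zero] at h3
        have h6 := (hβ2 _).1 h3
        exact (alg_smul_mem_csub_iff (fun h => (hq.mem_or_mem h).elim hC hc') _).1 h6
      refine ⟨?_, h5⟩
      rw [hη2, hvLq _ h5, smul_zero, sub_zero, ← map_smul, Submodule.mkQ_apply,
        Submodule.Quotient.mk_eq_zero] at h4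
      exact (alg_smul_mem_csub_iff hC _).1 h4
    · intro v hv
      obtain ⟨h2, h3⟩ := (hN' v).1 hv
      refine ⟨c * c, hcc, ?_⟩
      rw [LinearMap.mem_ker, map_smul]
      apply hθk
      rw [hθp]
      have h4 : η v = 0 := by
        refine Prod.ext ?_ ?_
        · rw [hη1]
          have h5 : CJ.mkQ (β (v ∘ Sum.inr)) = 0 :=
            (Submodule.Quotient.mk_eq_zero _).2 ((hβ2 _).2 h3)
          rw [h5, smul_zero]
          rfl
        · rw [hη2, hvLq _ h3, smul_zero, sub_zero]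
          exact (Submodule.Quotient.mk_eq_zero _).2 h2
      rw [h4, smul_zero]
  · -- the image
    intro j hj a ha m hm
    have hgen := hθ.map_mem_gen hm
    obtain ⟨y, hy, hym⟩ := (fE_isHom hF (monoI_pow q I (s + 1) ρ)).gen_le_map
      (Submodule.mkQ_surjective _) j ((prodZ_fst _ F₀).map_mem_gen hgen)
    have hylev := gen_semi_le hF j hy
    have hay : algebraMap A (MonoidAlgebra A D) a • y ∈ csub (D : Type u) J' := by
      intro i g
      rw [Pi.smul_apply, smul_eq_mul, coeff_algebraMap_mul]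
      by_cases hi : ρ i < j
      · rw [hylev i hi]
        change a * 0 ∈ _
        rw [mul_zero]
        exact Submodule.zero_mem _
      · exact Ideal.mul_mem_right _ _
          (Ideal.mem_sup_left (Ideal.pow_le_pow_right (by omega) ha))
    have h2 : algebraMap A (MonoidAlgebra A D) a • (θ m).2 = 0 := by
      cases j with
      | zero =>
        rw [Nat.sub_zero] at ha
        exact kF₀ _ (Ideal.pow_le_self (by omega) ha) _
      | succ j => rw [gen_prodZ _ F₀ j _ hgen, smul_zero]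
    have hθm : algebraMap A (MonoidAlgebra A D) a • θ m =
        (CJ.mkQ (algebraMap A (MonoidAlgebra A D) a • y), 0) := by
      refine Prod.ext ?_ h2
      change algebraMap A (MonoidAlgebra A D) a • (θ m).1 = _
      rw [map_smul]
      exact congrArg _ hym.symm
    obtain ⟨t, ht⟩ := hβ3 _ hay
    have ht' : CJ.mkQ (β t) = algebraMap A (MonoidAlgebra A D) cb •
        CJ.mkQ (algebraMap A (MonoidAlgebra A D) a • y) := by
      rw [← map_smul, ← sub_eq_zero, ← map_sub]
      exact (Submodule.Quotient.mk_eq_zero _).2 ht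
    -- the correction
    have hpx : p (algebraMap A (MonoidAlgebra A D) c • vL t) = 0 := by
      rw [map_smul, hpvL, smul_smul, ← map_mul, mul_comm, map_mul, mul_smul, ← hβJ, ht', map_smul]
      have h3 : h (CJ.mkQ (algebraMap A (MonoidAlgebra A D) a • y)) = 0 := by
        have h4 : h₁ (algebraMap A (MonoidAlgebra A D) a • θ m) = 0 := by
          rw [map_smul, hθ0, smul_zero]
        rw [hθm, hh₁a, map_zero, add_zero] at h4
        exact h4
      rw [h3, smul_zero, smul_zero]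
    obtain ⟨c₃, hc₃, v₃, hv₃⟩ := hd2 _ (LinearMap.mem_ker.2 hpx)
    let v : κ ⊕ Fin r → MonoidAlgebra A D :=
      Sum.elim v₃ (algebraMap A (MonoidAlgebra A D) c₃ • t)
    have hηv : η v = algebraMap A (MonoidAlgebra A D) (c' * c₃ * cb) •
        (algebraMap A (MonoidAlgebra A D) a • θ m) := by
      rw [hθm]
      refine Prod.ext ?_ ?_
      · change algebraMap A (MonoidAlgebra A D) c' •
          CJ.mkQ (β (algebraMap A (MonoidAlgebra A D) c₃ • t)) =
          algebraMap A (MonoidAlgebra A D) (c' * c₃ * cb) •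
            CJ.mkQ (algebraMap A (MonoidAlgebra A D) a • y)
        rw [map_smul, map_smul, ht', smul_smul, smul_smul, ← map_mul, ← map_mul, mul_assoc]
      · change Cq.mkQ (d v₃) - algebraMap A (MonoidAlgebra A D) c •
          Cq.mkQ (vL (algebraMap A (MonoidAlgebra A D) c₃ • t)) =
          algebraMap A (MonoidAlgebra A D) (c' * c₃ * cb) • (0 : F₀)
        rw [smul_zero, map_smul, map_smul, smul_smul, ← map_mul, mul_comm c c₃, map_mul, mul_smul,
          ← map_smul, ← map_smul, ← map_sub]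
        exact (Submodule.Quotient.mk_eq_zero _).2 hv₃
    have hfin : θ (p' v - algebraMap A (MonoidAlgebra A D) (c * c * c * (c' * c₃ * cb) * a) • m) =
        0 := by
      rw [map_sub, hθp, hηv, map_smul, smul_smul, smul_smul, ← map_mul, ← map_mul, sub_self]
    have hlast := hθk _ hfin
    refine ⟨c * c * (c * c * c * (c' * c₃ * cb)), ?_,
      algebraMap A (MonoidAlgebra A D) (c * c) • v, ?_⟩
    · intro h
      rcases hq.mem_or_mem h with h | h
      · exact hcc h
      · rcases hq.mem_or_mem h with h | h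
        · exact hC h
        · rcases hq.mem_or_mem h with h | h
          · exact (hq.mem_or_mem h).elim hc' hc₃
          · exact hcb h
    · rw [smul_sub, sub_eq_zero] at hlast
      rw [map_smul, hlast, smul_smul, ← map_mul, ← mul_assoc]

end

end Pool.Agent.Lib.MP_551055_al.T4
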