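import Mathlib
import Pool.Agent.Lib.MP_551055_al.Trim.LS.Stmts
import Pool.Agent.Lib.MP_551055_al.Trim.T4.Constr
import Pool.Agent.Lib.MP_551055_al.Trim.T4.Csub
import Pool.Agent.Lib.MP_551055_al.Trim.T4.Gen
import Pool.Agent.Lib.MP_551055_al.Trim.T4.Ind
import Pool.Agent.Lib.MP_551055_al.Trim.T4.Ind0
import Pool.Agent.Lib.MP_551055_al.Trim.T4.Mods
import Pool.Agent.Lib.MP_551055_al.Trim.T4.NGTri
import Pool.Agent.Lib.MP_551055_al.Trim.T4.Perf
import Pool.Agent.Lib.MP_551055_al.Trim.T4.VStep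
import Pool.Agent.Lib.MP_551055_al.Trim.T5.GRes
import Pool.Agent.Lib.MP_551055_al.Trim.T5.VDStep
import Pool.Agent.Lib.MP_551055_al.Trim.T5.VData

/-!
# The V step over field coefficients
-/

set_option autoImplicit false

namespace Pool.Agent.Lib.MP_551055_al
end Pool.Agent.Lib.MP_551055_al

namespace Pool.Agent.Lib.MP_551055_al.LS
end Pool.Agent.Lib.MP_551055_al.LS

namespace Pool.Agent.Lib.MP_551055_al.LD
end Pool.Agent.Lib.MP_551055_al.LD

namespace Pool.Agent.Lib.MP_551055_al.T4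

open Pool.Agent.Lib.MP_551055_al

open Pool.Agent.Lib.MP_551055_al.LS

open Pool.Agent.Lib.MP_551055_al.LD

universe u

section

variable {A : Type u} [CommRing A] {G : Type u} [Group G] {D : Subgroup G}

/-- The start: a map to the socle of the product of the module with a module with zero map. -/
theorem exists_vdata [IsNoetherianRing A] {M : Type u} [AddCommGroup M]
    [Module (MonoidAlgebra A D) M] [Module.Finite (MonoidAlgebra A D) M] {q : Ideal A}
    [hq : q.IsPrime] {s : ℕ} (hs : 1 ≤ s) {f : M →ₛₗ[incD D A] Ind A D M}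
    (hord : Ord q (s + 1) f) (hsoc : GenPq q D (Soc q f)) :
    ∃ (ι : Type) (_ : Fintype ι) (m n : ℕ)
      (p : (ι → MonoidAlgebra A D) →ₗ[MonoidAlgebra A D]
        M × ((Fin m → MonoidAlgebra A D) ⧸ csub D fun _ => q)),
      VData q n s (prodZ f ((Fin m → MonoidAlgebra A D) ⧸ csub D fun _ => q)) p := by
  classical
  obtain ⟨c, t, hc, ht⟩ := exists_soc_set hord
  obtain ⟨ι, iι, m, n, p, hp0, hpr, hpt⟩ := hsoc t
  obtain ⟨c', hc', hv'⟩ := exists_common_prime q (X := Soc q f)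
    (p := fun c y => ∃ v, p v = (algebraMap A (MonoidAlgebra A D) c • y, 0))
    (fun c d y hcy => by
      obtain ⟨v, hv⟩ := hcy
      refine ⟨algebraMap A (MonoidAlgebra A D) d • v, ?_⟩
      rw [map_smul, hv, Prod.smul_mk, smul_zero, smul_smul, ← map_mul]) t hpt
  let T := (Fin m → MonoidAlgebra A D) ⧸ csub (D : Type u) fun _ => q
  let p' : (ι → MonoidAlgebra A D) →ₗ[MonoidAlgebra A D] M × T :=
    ((Soc q f).subtype.prodMap LinearMap.id) ∘ₗ p
  have hp' : ∀ v, p' v = (((p v).1 : M), (p v).2) := fun v => rfl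
  have kT : Killed (D := D) q T := killed_EJ_const
  refine ⟨ι, iι, m, n, p', ⟨fun v => ?_, ?_, ?_⟩⟩
  · rw [mem_Soc]
    refine ⟨fun a ha => Prod.ext ((mem_Soc.1 (p v).1.2).1 a ha) (kT a ha _), ?_⟩
    apply Ind.ext
    intro x
    rw [prodZ_apply, hp', (mem_Soc.1 (p v).1.2).2]
    rfl
  · have h1 : LinearMap.ker p' = LinearMap.ker p := by
      ext v
      rw [LinearMap.mem_ker, LinearMap.mem_ker, hp', Prod.mk_eq_zero]
      constructor
      · intro h
        exact Prod.ext (Subtype.ext h.1) h.2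
      · intro h
        rw [h]
        exact ⟨rfl, rfl⟩
    rw [h1]
    exact hpr
  · have hspan : ∀ z ∈ Submodule.span (MonoidAlgebra A D) (t : Set (Soc q f)),
        ∃ v, p' v = (algebraMap A (MonoidAlgebra A D) c' • (z : M), (0 : T)) := by
      intro z hz
      induction hz using Submodule.span_induction with
      | mem z hz =>
        obtain ⟨v, hv⟩ := hv' z hz
        exact ⟨v, by rw [hp', hv]; rfl⟩
      | zero =>
        refine ⟨0, ?_⟩
        rw [map_zero]
        exact (Prod.ext (smul_zero _) rfl : ((algebraMap A (MonoidAlgebra A D) c' •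
          ((0 : Soc q f) : M), (0 : T))) = 0).symm
      | add z w _ _ hz hw =>
        obtain ⟨v, hv⟩ := hz
        obtain ⟨v', hv'⟩ := hw
        refine ⟨v + v', ?_⟩
        rw [map_add, hv, hv', Prod.mk_add_mk, add_zero, ← smul_add]
        rfl
      | smul r z _ hz =>
        obtain ⟨v, hv⟩ := hz
        refine ⟨r • v, ?_⟩
        rw [map_smul, hv, Prod.smul_mk, smul_zero, smul_smul, ← Algebra.commutes, ← smul_smul]
        rfl
    intro k hk a ha y hy
    have h2 : algebraMap A (MonoidAlgebra A D) (c' * c * a) • y.2 = 0 := by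
      cases k with
      | zero =>
        rw [Nat.sub_zero] at ha
        exact kT _ (q.mul_mem_left _ (Ideal.pow_le_self (by omega) ha)) _
      | succ k =>
        rw [gen_prodZ f _ k y hy, smul_zero]
    obtain ⟨z, hz, hzy⟩ := ht k hk a ha y.1 ((prodZ_fst f _).map_mem_gen hy)
    obtain ⟨v, hv⟩ := hspan z hz
    refine ⟨c' * c, fun h => (hq.mem_or_mem h).elim hc' hc, v, ?_⟩
    rw [hv]
    refine Prod.ext ?_ h2.symm
    change algebraMap A (MonoidAlgebra A D) c' • (z : M) =
      algebraMap A (MonoidAlgebra A D) (c' * c * a) • y.1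
    rw [hzy, smul_smul, ← map_mul, mul_assoc]

/-- Elimination of the part of the socle given by `VData`. -/
theorem vd_elim (K : K1C (MonoidAlgebra A G)) [IsNoetherianRing A]
    (hA : ∀ (N : Type u) [AddCommGroup N] [Module A N], Module.Finite A N → Perf A N)
    {I q : Ideal A} [hq : q.IsPrime] (hIq : I ≤ q) {s : ℕ} (hs : 1 ≤ s) (n : ℕ) :
    ∀ {M : Type u} [AddCommGroup M] [Module (MonoidAlgebra A D) M]
    {f : M →ₛₗ[incD D A] Ind A D M} (_ : Perf (MonoidAlgebra A D) M) (_ : SNil f)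
    (_ : Killed (D := D) I M) (_ : Ord q (s + 1) f) {ι : Type}
    [Fintype ι] {p : (ι → MonoidAlgebra A D) →ₗ[MonoidAlgebra A D] M} (_ : VData q n s f p),
    ∃ (M' : Type u) (_ : AddCommGroup M') (_ : Module (MonoidAlgebra A D) M')
      (f' : M' →ₛₗ[incD D A] Ind A D M'),
      Perf (MonoidAlgebra A D) M' ∧ SNil f' ∧ Killed (D := D) I M' ∧ Ord q s f' ∧
      (NGM K f' → NGM K f) := by
  induction n with
  | zero =>
    intro M _ _ f hM hf hI _ ι _ p hp
    exact vdZero K hA hM hf hI hp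
  | succ n ih =>
    intro M _ _ f hM hf hI ho ι _ p hp
    obtain ⟨W, i1, i2, fW, ι₁, i3, p', pW, sW, kW, oW, vW, hW⟩ :=
      vdStep K hA hIq hs hM hf hI ho hp
    obtain ⟨M', i4, i5, f', h1, h2, h3, h4, h5⟩ := ih pW sW kW oW vW
    exact ⟨M', i4, i5, f', h1, h2, h3, h4, fun h => hW (h5 h)⟩

/-- The V step. -/
theorem vStep5 (K : K1C (MonoidAlgebra A G)) [IsNoetherianRing A]
    (hA : ∀ (N : Type u) [AddCommGroup N] [Module A N], Module.Finite A N → Perf A N)
    {I q : Ideal A} [hq : q.IsPrime] (hIq : I ≤ q) {s : ℕ} (hs : 1 ≤ s)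
    {M : Type u} [AddCommGroup M] [Module (MonoidAlgebra A D) M]
    {f : M →ₛₗ[incD D A] Ind A D M}
    (hM : Perf (MonoidAlgebra A D) M) (hf : SNil f) (hI : Killed (D := D) I M)
    (hord : Ord q (s + 1) f) (hsoc : GenPq q D (Soc q f)) :
    ∃ (M' : Type u) (_ : AddCommGroup M') (_ : Module (MonoidAlgebra A D) M')
      (f' : M' →ₛₗ[incD D A] Ind A D M'),
      Perf (MonoidAlgebra A D) M' ∧ SNil f' ∧ Killed (D := D) I M' ∧ Ord q s f' ∧
      (NGM K f' → NGM K f) := by
  have := hM.finite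
  obtain ⟨ι, iι, m, n, p, hp⟩ := exists_vdata hs hord hsoc
  have kT : Killed (D := D) q ((Fin m → MonoidAlgebra A D) ⧸ csub (D : Type u) fun _ => q) :=
    killed_EJ_const
  have pT : Perf (MonoidAlgebra A D)
      ((Fin m → MonoidAlgebra A D) ⧸ csub (D : Type u) fun _ => q) := perf_EJ hA fun _ => q
  obtain ⟨M', i1, i2, f', h1, h2, h3, h4, h5⟩ := vd_elim K hA hIq hs n (hM.prod pT)
    (hf.prodZ _) (Killed.prod hI (Killed.mono hIq kT)) (hord.prodZ (by omega) _ kT) hp
  refine ⟨M', i1, i2, f', h1, h2, h3, h4, fun hN => ?_⟩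
  refine NGM.left K (i := LinearMap.inl (MonoidAlgebra A D) M _)
    (q := LinearMap.snd (MonoidAlgebra A D) M _) LinearMap.inl_injective
    LinearMap.snd_surjective (fun y => ⟨fun h => ⟨y.1, Prod.ext rfl h.symm⟩, ?_⟩)
    (prodZ_inl f _) (prodZ_snd f _) (h5 hN) (NGM.zero K pT)
  rintro ⟨x, rfl⟩
  rfl

end

end Pool.Agent.Lib.MP_551055_al.T4
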