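import Mathlib
import Pool.Agent.Lib.MP_551055_al.Trim.LS.Stmts
import Pool.Agent.Lib.MP_551055_al.Trim.T4.CA
import Pool.Agent.Lib.MP_551055_al.Trim.T4.Core
import Pool.Agent.Lib.MP_551055_al.Trim.T4.Csub
import Pool.Agent.Lib.MP_551055_al.Trim.T4.Ind
import Pool.Agent.Lib.MP_551055_al.Trim.T4.Ind0
import Pool.Agent.Lib.MP_551055_al.Trim.T4.Mods
import Pool.Agent.Lib.MP_551055_al.Trim.T4.NGTri
import Pool.Agent.Lib.MP_551055_al.Trim.T4.OneStep
import Pool.Agent.Lib.MP_551055_al.Trim.T4.Perf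
import Pool.Agent.Lib.MP_551055_al.Trim.T4.Tri
import Pool.Agent.Lib.MP_551055_al.Trim.T5.GRes
import Pool.Agent.Lib.MP_551055_al.Trim.T5.VStep5

/-!
# The noetherian induction over field coefficients
-/

set_option autoImplicit false

namespace Pool.Agent.Lib.MP_551055_al
end Pool.Agent.Lib.MP_551055_al

namespace Pool.Agent.Lib.MP_551055_al.LS
end Pool.Agent.Lib.MP_551055_al.LS

namespace Pool.Agent.Lib.MP_551055_al.LD
end Pool.Agent.Lib.MP_551055_al.LD

namespace Pool.Agent.Lib.MP_551055_al.T4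

open Pool.Agent.Lib.MP_551055_al

open Pool.Agent.Lib.MP_551055_al.LS

open Pool.Agent.Lib.MP_551055_al.LD

universe u

/-- The statement on socles used in the induction. -/
def SocStmt (A : Type u) [CommRing A] {G : Type u} [Group G] (D : Subgroup G) : Prop :=
  ∀ {ι : Type} [Finite ι] (J : ι → Ideal A) (q : Ideal A) [q.IsPrime]
    {W : Type u} [AddCommGroup W] [Module (MonoidAlgebra A D) W]
    {ι' : Type} [Finite ι'] (J' : ι' → Ideal A)
    (f : W →ₛₗ[incD D A] Ind A D W)
    (f₂ : ((ι → MonoidAlgebra A D) ⧸ csub D J) →ₛₗ[incD D A]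
      Ind A D ((ι → MonoidAlgebra A D) ⧸ csub D J))
    (u : ((ι → MonoidAlgebra A D) ⧸ csub D J) →ₗ[MonoidAlgebra A D]
      ((ι' → MonoidAlgebra A D) ⧸ csub D J'))
    (θ : W →ₗ[MonoidAlgebra A D] ((ι → MonoidAlgebra A D) ⧸ csub D J)),
    IsHom f f₂ θ → (∀ w, u (θ w) = 0) → ∀ {c₀ : A}, c₀ ∉ q →
    (∀ w, θ w = 0 → algebraMap A (MonoidAlgebra A D) c₀ • w = 0) →
    (∀ x, u x = 0 → ∃ w, θ w = algebraMap A (MonoidAlgebra A D) c₀ • x) →
    GenPq q D (Soc q f)

section

variable {A : Type u} [CommRing A] [IsNoetherianRing A] {G : Type u} [Group G] {D : Subgroup G}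
  (K : K1C (MonoidAlgebra A G))
  (hA : ∀ (N : Type u) [AddCommGroup N] [Module A N], Module.Finite A N → Perf A N)

include hA

/-- The class of a strongly nilpotent nil module vanishes. -/
theorem core5_killed (hS : SocStmt A D) (I : Ideal A) :
    ∀ (M : Type u) [AddCommGroup M] [Module (MonoidAlgebra A D) M]
      (f : M →ₛₗ[incD D A] Ind A D M), Perf (MonoidAlgebra A D) M → SNil f →
      Killed (D := D) I M → NGM K f := by
  classical
  refine IsNoetherian.induction (R := A) (M := A)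
    (P := fun I : Ideal A => ∀ (M : Type u) [AddCommGroup M] [Module (MonoidAlgebra A D) M]
      (f : M →ₛₗ[incD D A] Ind A D M), Perf (MonoidAlgebra A D) M → SNil f →
      Killed (D := D) I M → NGM K f) ?_ I
  intro I ih
  by_cases hI : I = ⊤
  · intro M _ _ f hp hs hk
    have hsub : Subsingleton M := ⟨fun a b => by
      have h1 : ∀ y : M, y = 0 := fun y => by
        have h2 := hk 1 (by rw [hI]; trivial) y
        rwa [map_one, one_smul] at h2
      rw [h1 a, h1 b]⟩
    have hf : f = 0 := LinearMap.ext fun y => by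
      rw [Subsingleton.elim y 0, map_zero, map_zero]
    rw [hf]
    exact NGM.zero K hp
  obtain ⟨q, hqm⟩ := Ideal.nonempty_minimalPrimes hI
  have hq : q.IsPrime := hqm.1.1
  have hIq : I ≤ q := hqm.1.2
  obtain ⟨t, b, hb, hbt⟩ := exists_pow_mul_le hqm
  -- modules killed by an element outside of the prime ideal
  have hout : ∀ (c : A), c ∉ q → ∀ (M : Type u) [AddCommGroup M] [Module (MonoidAlgebra A D) M]
      (f : M →ₛₗ[incD D A] Ind A D M), Perf (MonoidAlgebra A D) M → SNil f →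
      Killed (D := D) I M → (∀ m : M, algebraMap A (MonoidAlgebra A D) c • m = 0) → NGM K f := by
    intro c hc M _ _ f hp hs hk hcM
    refine ih (I ⊔ Ideal.span {c}) (lt_sup_span hIq hc) M f hp hs ?_
    intro a ha m
    obtain ⟨a₁, h₁, a₂, h₂, rfl⟩ := Submodule.mem_sup.1 ha
    obtain ⟨d, rfl⟩ := Ideal.mem_span_singleton'.1 h₂
    rw [map_add, add_smul, hk a₁ h₁, zero_add, map_mul, mul_smul, hcM, smul_zero]
  -- the induction on the order
  have hord : ∀ (s : ℕ) (M : Type u) [AddCommGroup M] [Module (MonoidAlgebra A D) M]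
      (f : M →ₛₗ[incD D A] Ind A D M), Perf (MonoidAlgebra A D) M → SNil f →
      Killed (D := D) I M → Ord q s f → NGM K f := by
    intro s
    induction s with
    | zero =>
      intro M _ _ f hp hs hk ho
      obtain ⟨c, hc, hcM⟩ := Ord.zero_iff.1 ho
      exact hout c hc M f hp hs hk hcM
    | succ s ihs =>
      intro M _ _ f hp hs hk ho
      rcases Nat.eq_zero_or_pos s with rfl | hs0
      · -- order one
        obtain ⟨c, hc, H⟩ := ho
        have hcf : ∀ m x, algebraMap A (MonoidAlgebra A D) c • f m x = 0 := by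
          intro m x
          have h1 := H 1 le_rfl 1 (by rw [Nat.sub_self, pow_zero, Ideal.one_eq_top]; trivial)
            (f m x) (comp_mem_gen (j := 0) (Submodule.mem_top (R := MonoidAlgebra A D)) x)
          rwa [mul_one] at h1
        obtain ⟨k, M', i1, i2, f', h1, h2, h3, h4, h5⟩ :=
          oneStep K (fun J n => perf_EJ hA fun _ => J) hp hs hk c hcf
        exact h5 (hout (c ^ k) (fun h => hc (hq.mem_of_pow_mem k h)) M' f' h1 h2 h3 h4)
      · obtain ⟨ι₁, iι₁, J₁, fJ₁, u₁, W₁, j1, j2, fW₁, θ₁, c₁, hc₁, p₁, s₁, k₁, o₁, hθ₁, hu₁, hθk₁,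
          hθr₁, hN₁⟩ := e_step K hA hp hs hk ho
        obtain ⟨ι₂, iι₂, J₂, fJ₂, u₂, W₂, j3, j4, fW₂, θ₂, c₂, hc₂, p₂, s₂, k₂, o₂, hθ₂, hu₂, hθk₂,
          hθr₂, hN₂⟩ := e_step K hA p₁ s₁ k₁ o₁
        have hc₀ : c₂ * c₂ * (c₁ * c₁) ∉ q := fun h =>
          (hq.mem_or_mem h).elim (fun h => (hq.mem_or_mem h).elim hc₂ hc₂)
            fun h => (hq.mem_or_mem h).elim hc₁ hc₁
        have hsoc : GenPq q D (Soc q fW₂) := by
          refine hS J₂ q J₁ fW₂ fJ₂ (θ₁ ∘ₗ u₂) θ₂ hθ₂ (fun w => ?_) hc₀ (fun w hw => ?_)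
            fun x hx => ?_
          · rw [LinearMap.comp_apply, hu₂, map_zero]
          · rw [mul_comm, map_mul, mul_smul, hθk₂ w hw, smul_zero]
          · have h1 := hθk₁ _ hx
            rw [← map_smul] at h1
            obtain ⟨w, hw⟩ := hθr₂ _ h1
            refine ⟨algebraMap A (MonoidAlgebra A D) c₂ • w, ?_⟩
            rw [map_smul, hw, smul_smul, smul_smul, ← map_mul, ← map_mul, ← mul_assoc]
        obtain ⟨M', i1, i2, f', h1, h2, h3, h4, h5⟩ :=
          vStep5 K hA hIq hs0 p₂ s₂ k₂ o₂ hsoc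
        exact hN₁ (hN₂ (h5 (ihs M' f' h1 h2 h3 h4)))
  intro M _ _ f hp hs hk
  obtain ⟨s, ho⟩ := hs.ord hk hb hbt
  exact hord s M f hp hs hk ho

/-- The class of a strongly nilpotent nil module with a finite resolution is zero. -/
theorem core5 (hS : SocStmt A D) {M : Type u} [AddCommGroup M] [Module (MonoidAlgebra A D) M]
    (f : M →ₛₗ[incD D A] Ind A D M) (hp : Perf (MonoidAlgebra A D) M) (hs : SNil f) : NGM K f :=
  core5_killed K hA hS ⊥ M f hp hs fun a ha m => by
    rw [(Submodule.mem_bot A).1 ha, map_zero, zero_smul]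

end

end Pool.Agent.Lib.MP_551055_al.T4
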