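import Mathlib
import Pool.Agent.Lib.MP_551055_al.Trim.LS.Stmts

/-!
# Finite free resolutions

A module `V` with a finite resolution by finitely generated projective modules becomes, after the
addition of a finitely generated projective module, the image of a finitely generated free module
such that the kernel has a finite free resolution.
-/

set_option autoImplicit false

namespace Pool.Agent.Lib.MP_551055_al
end Pool.Agent.Lib.MP_551055_al

namespace Pool.Agent.Lib.MP_551055_al.LS
end Pool.Agent.Lib.MP_551055_al.LS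

namespace Pool.Agent.Lib.MP_551055_al.T4

open Pool.Agent.Lib.MP_551055_al

open Pool.Agent.Lib.MP_551055_al.LS

universe u

variable {S : Type u} [Ring S]

/-- Finite free resolutions of submodules of free modules. -/
def FRes : ℕ → ∀ {ι : Type}, Submodule S (ι → S) → Prop
  | 0, _, N => N = ⊥
  | n + 1, ι, N => ∃ (κ : Type) (_ : Fintype κ) (d : (κ → S) →ₗ[S] (ι → S)),
      LinearMap.range d = N ∧ FRes n (LinearMap.ker d)

theorem exists_fres {d : ℕ} : ∀ {V : Type u} [AddCommGroup V] [Module S V], FFR S d V →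
    ∃ (ι : Type) (_ : Fintype ι) (m : ℕ) (e : (Fin m → S) →ₗ[S] (Fin m → S))
      (p : (ι → S) →ₗ[S] V × (Fin m → S)) (l : ℕ), (∀ w, e (e w) = e w) ∧
      (∀ y w, (∃ v, p v = (y, w)) ↔ e w = 0) ∧ FRes l (LinearMap.ker p) := by
  induction d with
  | zero =>
    intro V _ _ h
    obtain ⟨h1, h2⟩ := h
    obtain ⟨n, f, hf⟩ := Module.Finite.exists_fin' S V
    obtain ⟨s, hs⟩ := Module.projective_lifting_property f LinearMap.id hf
    have hs' : ∀ m, f (s m) = m := fun m => DFunLike.congr_fun hs m
    refine ⟨Fin n, inferInstance, n, s ∘ₗ f, f.prod (LinearMap.id - s ∘ₗ f), 0, fun w => ?_,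
      fun y w => ?_, ?_⟩
    · change s (f (s (f w))) = s (f w)
      rw [hs']
    · constructor
      · rintro ⟨v, hv⟩
        have h3 : v - s (f v) = w := congrArg Prod.snd hv
        change s (f w) = 0
        rw [← h3, map_sub, hs', sub_self, map_zero]
      · intro h3
        have h4 : f w = 0 := by
          have h5 : s (f w) = 0 := h3
          rw [← hs' (f w), h5, map_zero]
        refine ⟨s y + w, Prod.ext ?_ ?_⟩
        · change f (s y + w) = y
          rw [map_add, hs', h4, add_zero]
        · change s y + w - s (f (s y + w)) = w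
          rw [map_add, hs', h4, add_zero, add_sub_cancel_left]
    · change LinearMap.ker _ = ⊥
      rw [LinearMap.ker_eq_bot']
      intro v hv
      have h3 : f v = 0 := congrArg Prod.fst hv
      have h4 : v - s (f v) = 0 := congrArg Prod.snd hv
      rwa [h3, map_zero, sub_zero] at h4
  | succ d ih =>
    intro V _ _ h
    obtain ⟨n, f, hf, hk⟩ := h
    obtain ⟨ι₁, iι₁, m₁, e₁, p₁, l, he₁, hp₁, hl⟩ := ih hk
    let p : (Fin n ⊕ Fin m₁ → S) →ₗ[S] V × (Fin m₁ → S) :=
      { toFun := fun v => (f (v ∘ Sum.inl), e₁ (v ∘ Sum.inr))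
        map_add' := fun v w => Prod.ext (map_add f _ _) (map_add e₁ _ _)
        map_smul' := fun r v => Prod.ext (map_smul f _ _) (map_smul e₁ _ _) }
    have hp : ∀ v, p v = (f (v ∘ Sum.inl), e₁ (v ∘ Sum.inr)) := fun _ => rfl
    let d' : (ι₁ → S) →ₗ[S] (Fin n ⊕ Fin m₁ → S) :=
      { toFun := fun v => Sum.elim ((p₁ v).1 : Fin n → S) (p₁ v).2
        map_add' := fun v w => by
          rw [map_add]
          funext i
          rcases i with i | i <;> rfl
        map_smul' := fun r v => by
          rw [map_smul]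
          funext i
          rcases i with i | i <;> rfl }
    have hd1 : ∀ v, d' v ∘ Sum.inl = ((p₁ v).1 : Fin n → S) := fun _ => rfl
    have hd2 : ∀ v, d' v ∘ Sum.inr = (p₁ v).2 := fun _ => rfl
    refine ⟨Fin n ⊕ Fin m₁, inferInstance, m₁, LinearMap.id - e₁, p, l + 1, fun w => ?_,
      fun y w => ?_, ι₁, iι₁, d', ?_, ?_⟩
    · change w - e₁ w - e₁ (w - e₁ w) = w - e₁ w
      rw [map_sub, he₁, sub_self, sub_zero]
    · constructor
      · rintro ⟨v, hv⟩
        have h3 : e₁ (v ∘ Sum.inr) = w := congrArg Prod.snd hv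
        change w - e₁ w = 0
        rw [← h3, he₁, sub_self]
      · intro h3
        have h4 : e₁ w = w := (sub_eq_zero.1 (h3 : w - e₁ w = 0)).symm
        obtain ⟨x, rfl⟩ := hf y
        exact ⟨Sum.elim x w, Prod.ext rfl h4⟩
    · ext x
      constructor
      · rintro ⟨v, rfl⟩
        rw [LinearMap.mem_ker, hp, hd1, hd2]
        exact Prod.ext (p₁ v).1.2 ((hp₁ (p₁ v).1 (p₁ v).2).1 ⟨v, rfl⟩)
      · intro hx
        rw [LinearMap.mem_ker, hp] at hx
        have h3 : f (x ∘ Sum.inl) = 0 := congrArg Prod.fst hx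
        have h4 : e₁ (x ∘ Sum.inr) = 0 := congrArg Prod.snd hx
        obtain ⟨v, hv⟩ := (hp₁ ⟨_, h3⟩ _).2 h4
        refine ⟨v, ?_⟩
        change Sum.elim ((p₁ v).1 : Fin n → S) (p₁ v).2 = x
        rw [hv]
        funext i
        rcases i with i | i <;> rfl
    · have h3 : LinearMap.ker d' = LinearMap.ker p₁ := by
        ext v
        rw [LinearMap.mem_ker, LinearMap.mem_ker]
        constructor
        · intro hv
          refine Prod.ext (Subtype.ext ?_) ?_
          · rw [← hd1, hv]
            rfl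
          · rw [← hd2, hv]
            rfl
        · intro hv
          change Sum.elim ((p₁ v).1 : Fin n → S) (p₁ v).2 = 0
          rw [hv]
          funext i
          rcases i with i | i <;> rfl
      rw [h3]
      exact hl

/-- The form in which the resolution is used. -/
theorem exists_fres_sub {a m d : ℕ} {V : Submodule S ((Fin a → S) × (Fin m → S))}
    (hV : FFR S d V) :
    ∃ (ι : Type) (_ : Fintype ι) (m' : ℕ) (P₁ : (ι → S) →ₗ[S] (Fin a → S))
      (P₂ : (ι → S) →ₗ[S] (Fin m' → S)) (l : ℕ), (∀ v, ∃ w, (P₁ v, w) ∈ V) ∧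
      (∀ x, (x, 0) ∈ V → ∃ v, P₁ v = x ∧ P₂ v = 0) ∧
      FRes l (LinearMap.ker P₁ ⊓ LinearMap.ker P₂) := by
  obtain ⟨ι, iι, m', e, p, l, -, hp, hl⟩ := exists_fres hV
  let P₁ : (ι → S) →ₗ[S] (Fin a → S) :=
    LinearMap.fst S _ _ ∘ₗ V.subtype ∘ₗ LinearMap.fst S _ _ ∘ₗ p
  have hP₁ : ∀ v, P₁ v = (p v).1.1.1 := fun _ => rfl
  let P₂ : (ι → S) →ₗ[S] (Fin (m + m') → S) :=
    { toFun := fun v i => Sum.elim (p v).1.1.2 (p v).2 (finSumFinEquiv.symm i)
      map_add' := fun v w => by
        funext i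
        rw [map_add, Pi.add_apply]
        rcases finSumFinEquiv.symm i with i | i <;> rfl
      map_smul' := fun r v => by
        funext i
        rw [map_smul, RingHom.id_apply, Pi.smul_apply]
        rcases finSumFinEquiv.symm i with i | i <;> rfl }
  have hP₂ : ∀ v, P₂ v = 0 ↔ (p v).1.1.2 = 0 ∧ (p v).2 = 0 := by
    intro v
    constructor
    · intro hv
      constructor
      · funext i
        have h1 := congrFun hv (finSumFinEquiv (Sum.inl i))
        change Sum.elim (p v).1.1.2 (p v).2
          (finSumFinEquiv.symm (finSumFinEquiv (Sum.inl i))) = 0 at h1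
        rwa [Equiv.symm_apply_apply] at h1
      · funext i
        have h1 := congrFun hv (finSumFinEquiv (Sum.inr i))
        change Sum.elim (p v).1.1.2 (p v).2
          (finSumFinEquiv.symm (finSumFinEquiv (Sum.inr i))) = 0 at h1
        rwa [Equiv.symm_apply_apply] at h1
    · rintro ⟨h1, h2⟩
      funext i
      change Sum.elim (p v).1.1.2 (p v).2 (finSumFinEquiv.symm i) = 0
      rw [h1, h2]
      rcases finSumFinEquiv.symm i with i | i <;> rfl
  refine ⟨ι, iι, m + m', P₁, P₂, l, fun v => ⟨(p v).1.1.2, (p v).1.2⟩, fun x hx => ?_, ?_⟩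
  · obtain ⟨v, hv⟩ := (hp ⟨(x, 0), hx⟩ 0).2 (map_zero e)
    refine ⟨v, ?_, (hP₂ v).2 ⟨?_, ?_⟩⟩
    · rw [hP₁, hv]
    · rw [hv]
    · rw [hv]
  · have h1 : LinearMap.ker P₁ ⊓ LinearMap.ker P₂ = LinearMap.ker p := by
      ext v
      rw [Submodule.mem_inf, LinearMap.mem_ker, LinearMap.mem_ker, LinearMap.mem_ker, hP₁, hP₂]
      constructor
      · rintro ⟨h1, h2, h3⟩
        exact Prod.ext (Subtype.ext (Prod.ext h1 h2)) h3
      · intro hv
        rw [hv]
        exact ⟨rfl, rfl, rfl⟩
    rw [h1]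
    exact hl

end Pool.Agent.Lib.MP_551055_al.T4
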