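import Mathlib
import Pool.Agent.Lib.MP_551055_al.Trim.LS.Stmts
import Pool.Agent.Lib.MP_551055_al.Trim.T4.Alg
import Pool.Agent.Lib.MP_551055_al.Trim.T4.Csub
import Pool.Agent.Lib.MP_551055_al.Trim.T4.Gen
import Pool.Agent.Lib.MP_551055_al.Trim.T5.FreeRes
import Pool.Agent.Lib.MP_551055_al.Trim.T5.GRes

/-!
# Clearing denominators

`A` is a commutative ring, `q` a prime ideal and `k` the field of fractions of `A / q`. Finite free
resolutions over `k[D]` give generic resolutions over `A[D]`.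
-/

set_option autoImplicit false

namespace Pool.Agent.Lib.MP_551055_al
end Pool.Agent.Lib.MP_551055_al

namespace Pool.Agent.Lib.MP_551055_al.LS
end Pool.Agent.Lib.MP_551055_al.LS

namespace Pool.Agent.Lib.MP_551055_al.T4

open Pool.Agent.Lib.MP_551055_al

open Pool.Agent.Lib.MP_551055_al.LS

universe u v

section

variable {A : Type u} [CommRing A] (q : Ideal A) [hq : q.IsPrime] {D : Type u} [Group D]

/-- The residue field. -/
abbrev Kq : Type u := FractionRing (A ⧸ q)

/-- The map to the group algebra over the residue field. -/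
noncomputable def eq' (D : Type u) [Group D] :
    MonoidAlgebra A D →+* MonoidAlgebra (Kq q) D := (ext (A ⧸ q) D).comp (red q D)

/-- The image of a constant. -/
noncomputable def ec (D : Type u) [Group D] (c : A) : MonoidAlgebra (Kq q) D :=
  eq' q D (algebraMap A (MonoidAlgebra A D) c)

theorem ec_eq (c : A) : ec q D c =
    algebraMap (A ⧸ q) (MonoidAlgebra (Kq q) D) (Ideal.Quotient.mk q c) := by
  change ext (A ⧸ q) D (red q D (algebraMap A (MonoidAlgebra A D) c)) = _
  rw [red_algebraMap, ext_algebraMap]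

theorem ec_comm (c : A) (r : MonoidAlgebra (Kq q) D) : ec q D c * r = r * ec q D c := by
  rw [ec_eq]
  exact Algebra.commutes _ _

theorem ec_mul (c d : A) : ec q D (c * d) = ec q D c * ec q D d := by
  rw [ec, ec, ec, map_mul, map_mul]

theorem eq'_eq_zero {r : MonoidAlgebra A D} : eq' q D r = 0 ↔ ∀ g, r.coeff g ∈ q := by
  rw [← red_eq_zero]
  constructor
  · intro h
    apply ext_injective
    rw [map_zero]
    exact h
  · intro h
    change ext (A ⧸ q) D (red q D r) = 0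
    rw [h, map_zero]

/-- The map on vectors. -/
noncomputable def eqv (D : Type u) [Group D] {X : Type*} :
    (X → MonoidAlgebra A D) →ₛₗ[eq' q D] (X → MonoidAlgebra (Kq q) D) where
  toFun v y := eq' q D (v y)
  map_add' _ _ := funext fun _ => map_add (eq' q D) _ _
  map_smul' _ _ := funext fun _ => map_mul (eq' q D) _ _

theorem eqv_eq {X : Type*} (v : X → MonoidAlgebra A D) :
    eqv q D v = extv (A ⧸ q) D (redv q v) := rfl

theorem eqv_eq_zero {ι : Type} {v : ι → MonoidAlgebra A D} :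
    eqv q D v = 0 ↔ v ∈ csub D fun _ => q := by
  constructor
  · intro h i
    exact (eq'_eq_zero q).1 (congrFun h i)
  · intro h
    funext i
    exact (eq'_eq_zero q).2 (h i)

theorem eqv_alg {X : Type*} (c : A) (v : X → MonoidAlgebra A D) :
    eqv q D (algebraMap A (MonoidAlgebra A D) c • v) = ec q D c • eqv q D v := map_smulₛₗ _ _ _

/-- The constants outside of `q` are not zero divisors. -/
theorem ec_reg {c : A} (hc : c ∉ q) {X : Type*} (w : X → MonoidAlgebra (Kq q) D)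
    (hw : ec q D c • w = 0) : w = 0 := by
  funext i
  have h4 := congrFun hw i
  rw [Pi.smul_apply, smul_eq_mul, ec_eq, ← Algebra.smul_def] at h4
  have hc' : algebraMap (A ⧸ q) (Kq q) (Ideal.Quotient.mk q c) ≠ 0 := by
    intro h
    apply hc
    rw [← Ideal.Quotient.eq_zero_iff_mem]
    exact IsFractionRing.injective (A ⧸ q) (Kq q) (by rw [h, map_zero])
  ext g
  have h2 : (Ideal.Quotient.mk q c • w i).coeff g = 0 := by rw [h4]; rfl
  rw [MonoidAlgebra.coeff_smul_apply, Algebra.smul_def] at h2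
  exact (mul_eq_zero.1 h2).resolve_left hc'

/-- Clearing the denominators of one element. -/
theorem exists_eq (w : MonoidAlgebra (Kq q) D) :
    ∃ c : A, c ∉ q ∧ ∃ t, eq' q D t = ec q D c * w := by
  obtain ⟨c', hc', t', ht'⟩ := exists_int w
  obtain ⟨c, rfl⟩ := Ideal.Quotient.mk_surjective c'
  obtain ⟨t, rfl⟩ := red_surjective q t'
  refine ⟨c, fun h => hc' (Ideal.Quotient.eq_zero_iff_mem.2 h), t, ?_⟩
  rw [ec_eq]
  exact ht'

/-- Clearing the denominators of a finite family. -/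
theorem exists_eq_fam {X : Type*} [Finite X] (w : X → MonoidAlgebra (Kq q) D) :
    ∃ c : A, c ∉ q ∧ ∃ t : X → MonoidAlgebra A D, eqv q D t = ec q D c • w := by
  classical
  have := Fintype.ofFinite X
  obtain ⟨c, hc, h⟩ := exists_common_prime q
    (p := fun (c : A) y => ∃ t, eq' q D t = ec q D c * w y)
    (by
      rintro c d y ⟨t, ht⟩
      refine ⟨algebraMap A _ d * t, ?_⟩
      rw [map_mul, ht, ec_mul, mul_assoc]
      rfl) Finset.univ fun y _ => exists_eq q (w y)
  choose t ht using fun y => h y (Finset.mem_univ y)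
  exact ⟨c, hc, t, funext ht⟩

theorem pi_eq_sum {R : Type*} [Ring R] {κ : Type*} [Fintype κ] [DecidableEq κ] {M : Type*}
    [AddCommGroup M] [Module R M] (φ : (κ → R) →ₗ[R] M) (v : κ → R) :
    φ v = ∑ i, v i • φ (Pi.single i 1) := by
  have h1 : v = ∑ i, v i • (Pi.single i 1 : κ → R) := by
    funext l
    rw [Finset.sum_apply, Finset.sum_eq_single l]
    · rw [Pi.smul_apply, Pi.single_eq_same, smul_eq_mul, mul_one]
    · intro k _ hk
      rw [Pi.smul_apply, Pi.single_eq_of_ne (Ne.symm hk), smul_zero]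
    · exact fun h => absurd (Finset.mem_univ l) h
  conv_lhs => rw [h1]
  rw [map_sum]
  exact Finset.sum_congr rfl fun i _ => map_smul φ _ _

/-- Lifting the values on the basis lifts the map. -/
theorem lift_of {κ : Type} [Fintype κ] [DecidableEq κ] {X : Type*} {c : A}
    (d : (κ → MonoidAlgebra (Kq q) D) →ₗ[MonoidAlgebra (Kq q) D] (X → MonoidAlgebra (Kq q) D))
    (z : κ → X → MonoidAlgebra A D)
    (hz : ∀ i, eqv q D (z i) = ec q D c • d (Pi.single i 1)) (v : κ → MonoidAlgebra A D) :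
    eqv q D (Fintype.linearCombination (MonoidAlgebra A D) z v) = ec q D c • d (eqv q D v) := by
  classical
  rw [pi_eq_sum d (eqv q D v), Fintype.linearCombination_apply, map_sum, Finset.smul_sum]
  refine Finset.sum_congr rfl fun i _ => ?_
  rw [map_smulₛₗ, hz, smul_smul, smul_smul, ec_comm]
  rfl

/-- Lifting of a matrix. -/
theorem exists_lift_gen {κ ι : Type} [Fintype κ] [Finite ι]
    (d : (κ → MonoidAlgebra (Kq q) D) →ₗ[MonoidAlgebra (Kq q) D] (ι → MonoidAlgebra (Kq q) D)) :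
    ∃ c : A, c ∉ q ∧ ∃ d' : (κ → MonoidAlgebra A D) →ₗ[MonoidAlgebra A D]
      (ι → MonoidAlgebra A D), ∀ v, eqv q D (d' v) = ec q D c • d (eqv q D v) := by
  classical
  obtain ⟨c, hc, t, ht⟩ := exists_eq_fam q
    (fun p : κ × ι => d (Pi.single p.1 1) p.2)
  refine ⟨c, hc, Fintype.linearCombination (MonoidAlgebra A D) fun i k => t (i, k), ?_⟩
  exact lift_of q d _ fun i => funext fun k => congrFun ht (i, k)

/-- Finite free resolutions give generic resolutions. -/
theorem GRq.of_fres {n : ℕ} : ∀ {ι : Type} [Finite ι]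
    {N : Submodule (MonoidAlgebra (Kq q) D) (ι → MonoidAlgebra (Kq q) D)}
    {N' : Submodule (MonoidAlgebra A D) (ι → MonoidAlgebra A D)},
    (∀ v, v ∈ N' ↔ eqv q D v ∈ N) → FRes n N → GRq q D n N' := by
  induction n with
  | zero =>
    intro ι _ N N' h hN v hv
    rw [← eqv_eq_zero]
    have h1 := (h v).1 hv
    have h2 : N = ⊥ := hN
    rwa [h2, Submodule.mem_bot] at h1
  | succ n ih =>
    intro ι _ N N' h hN
    obtain ⟨κ, iκ, d, hd, hn⟩ := hN
    obtain ⟨c, hc, d', hd'⟩ := exists_lift_gen q d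
    refine ⟨κ, iκ, d', fun v => ?_, fun x hx => ?_, ih (fun v => ?_) hn⟩
    · rw [h, hd', ← map_smul, ← hd]
      exact ⟨_, rfl⟩
    · rw [h, ← hd] at hx
      obtain ⟨w, hw⟩ := hx
      obtain ⟨c₁, hc₁, w', hw'⟩ := exists_eq_fam q w
      refine ⟨c * c₁, fun h => (hq.mem_or_mem h).elim hc hc₁, w', ?_⟩
      rw [← eqv_eq_zero, map_sub, hd', hw', eqv_alg, map_smul, hw, ec_mul, mul_smul, sub_self]
    · rw [Submodule.mem_comap, ← eqv_eq_zero, hd', LinearMap.mem_ker]
      constructor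
      · exact fun h => ec_reg q hc _ h
      · intro h
        rw [h, smul_zero]

/-- Maps to a product of free modules have finitely many relevant coordinates. -/
theorem exists_fin_ker {R : Type*} [Ring R] {a n : ℕ} {X : Type*}
    (Φ : (Fin a → R) →ₗ[R] (X →₀ R) × (Fin n → R)) :
    ∃ (b : ℕ) (φ : (Fin a → R) →ₗ[R] (Fin b → R)), ∀ v, φ v = 0 ↔ Φ v = 0 := by
  classical
  let Y : Finset X := Finset.univ.biUnion fun i => (Φ (Pi.single i 1)).1.support
  have hY : ∀ v t, t ∉ Y → (Φ v).1 t = 0 := by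
    intro v t ht
    have h1 := pi_eq_sum (LinearMap.fst R _ _ ∘ₗ Φ) v
    change (Φ v).1 = ∑ i, v i • (Φ (Pi.single i 1)).1 at h1
    rw [h1, Finsupp.finsetSum_apply]
    refine Finset.sum_eq_zero fun i _ => ?_
    rw [Finsupp.smul_apply]
    have h0 : (Φ (Pi.single i 1)).1 t = 0 := by
      by_contra hne
      exact ht (Finset.mem_biUnion.2 ⟨i, Finset.mem_univ i, Finsupp.mem_support_iff.2 hne⟩)
    rw [h0, smul_zero]
  let φ : (Fin a → R) →ₗ[R] (Fin (Y.card + n) → R) :=
    { toFun := fun v i => Sum.elim (fun j => (Φ v).1 (Y.equivFin.symm j : X)) (Φ v).2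
        (finSumFinEquiv.symm i)
      map_add' := fun v w => by
        funext i
        rw [map_add, Pi.add_apply]
        rcases finSumFinEquiv.symm i with i | i <;> rfl
      map_smul' := fun r v => by
        funext i
        rw [map_smul, RingHom.id_apply, Pi.smul_apply]
        rcases finSumFinEquiv.symm i with i | i <;> rfl }
  refine ⟨Y.card + n, φ, fun v => ⟨fun h => ?_, fun h => ?_⟩⟩
  · refine Prod.ext ?_ ?_
    · ext1 t
      by_cases ht : t ∈ Y
      · have h1 := congrFun h (finSumFinEquiv (Sum.inl (Y.equivFin ⟨t, ht⟩)))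
        change Sum.elim (fun j => (Φ v).1 (Y.equivFin.symm j : X)) (Φ v).2
          (finSumFinEquiv.symm (finSumFinEquiv (Sum.inl (Y.equivFin ⟨t, ht⟩)))) = 0 at h1
        rw [Equiv.symm_apply_apply] at h1
        change (Φ v).1 (Y.equivFin.symm (Y.equivFin ⟨t, ht⟩) : X) = 0 at h1
        rwa [Equiv.symm_apply_apply] at h1
      · exact hY v t ht
    · funext i
      have h1 := congrFun h (finSumFinEquiv (Sum.inr i))
      change Sum.elim (fun j => (Φ v).1 (Y.equivFin.symm j : X)) (Φ v).2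
        (finSumFinEquiv.symm (finSumFinEquiv (Sum.inr i))) = 0 at h1
      rwa [Equiv.symm_apply_apply] at h1
  · funext i
    change Sum.elim (fun j => (Φ v).1 (Y.equivFin.symm j : X)) (Φ v).2 (finSumFinEquiv.symm i) = 0
    rw [h]
    rcases finSumFinEquiv.symm i with i | i <;> rfl

/-- A map to a kernel over `(A / q)[D]` gives a map to a kernel over the residue field. -/
theorem exists_ext {K : Type*} [AddCommGroup K] [Module (MonoidAlgebra A D) K]
    {a n : ℕ} {X : Type*} (Φ : (Fin a → MonoidAlgebra (A ⧸ q) D) →ₗ[MonoidAlgebra (A ⧸ q) D]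
      (X →₀ MonoidAlgebra (A ⧸ q) D) × (Fin n → MonoidAlgebra (A ⧸ q) D))
    (U : K →ₛₗ[red q D] LinearMap.ker Φ)
    (h1 : ∀ y : LinearMap.ker Φ, ∃ c : A, c ∉ q ∧ ∃ z, U z = red q D (algebraMap A _ c) • y)
    (h2 : ∀ z, U z = 0 → ∃ c : A, c ∉ q ∧ algebraMap A (MonoidAlgebra A D) c • z = 0) :
    ∃ (b : ℕ) (φ : (Fin a → MonoidAlgebra (Kq q) D) →ₗ[MonoidAlgebra (Kq q) D]
        (Fin b → MonoidAlgebra (Kq q) D))
      (E : K →ₛₗ[eq' q D] (Fin a → MonoidAlgebra (Kq q) D)),
      (∀ y, φ (E y) = 0) ∧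
      (∀ x, φ x = 0 → ∃ c : A, c ∉ q ∧ ∃ z : K, E z = ec q D c • x) ∧
      (∀ z, E z = 0 → ∃ c : A, c ∉ q ∧ algebraMap A (MonoidAlgebra A D) c • z = 0) := by
  classical
  obtain ⟨b, φ, hφ⟩ := exists_fin_ker Φ
  have hzero : ∀ X : Type, extv (A ⧸ q) D (0 : X → MonoidAlgebra (A ⧸ q) D) = 0 := fun X =>
    funext fun _ => map_zero (ext (A ⧸ q) D)
  obtain ⟨φ', hφ'⟩ : ∃ φ' : (Fin a → MonoidAlgebra (Kq q) D) →ₗ[MonoidAlgebra (Kq q) D]
      (Fin b → MonoidAlgebra (Kq q) D), ∀ v, extv (A ⧸ q) D (φ v) = φ' (extv (A ⧸ q) D v) := by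
    refine ⟨Fintype.linearCombination _ fun i => extv (A ⧸ q) D (φ (Pi.single i 1)), fun v => ?_⟩
    have h := extv_lc v fun i => φ (Pi.single i 1)
    rw [← map_eq_lc φ] at h
    exact h
  obtain ⟨E, hE⟩ : ∃ E : K →ₛₗ[eq' q D] (Fin a → MonoidAlgebra (Kq q) D),
      ∀ y, E y = extv (A ⧸ q) D (U y).1 := by
    refine ⟨{ toFun := fun y => extv (A ⧸ q) D (U y).1
              map_add' := fun y z => ?_
              map_smul' := fun r y => ?_ }, fun y => rfl⟩
    · have h := congrArg Subtype.val (map_add U y z)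
      rw [h]
      funext i
      exact map_add (ext (A ⧸ q) D) _ _
    · have h := congrArg Subtype.val (map_smulₛₗ U r y)
      rw [h]
      funext i
      exact map_mul (ext (A ⧸ q) D) _ _
  refine ⟨b, φ', E, fun y => ?_, fun x hx => ?_, fun z hz => ?_⟩
  · rw [hE, ← hφ', (hφ _).2 (LinearMap.mem_ker.1 (U y).2)]
    exact hzero _
  · obtain ⟨c, hc, t, ht⟩ := exists_eq_fam q x
    have h4 : φ (redv q t) = 0 := by
      apply extv_injective
      rw [hφ', ← eqv_eq, ht, map_smul, hx, smul_zero, hzero]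
    obtain ⟨c', hc', z, hz⟩ := h1 ⟨redv q t, LinearMap.mem_ker.2 ((hφ _).1 h4)⟩
    refine ⟨c' * c, fun h => (hq.mem_or_mem h).elim hc' hc, z, ?_⟩
    have h5 := congrArg Subtype.val hz
    rw [hE, h5, ec_mul, mul_smul, ← ht]
    funext j
    exact map_mul (ext (A ⧸ q) D) _ _
  · refine h2 z (Subtype.ext (extv_injective ?_))
    rw [← hE, hz]
    exact (hzero _).symm

/-- Modules killed by `q` which are generically the kernel of a map between free modules. -/
theorem genPq_of_ext (hD : FieldLPK D) {K : Type*} [AddCommGroup K]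
    [Module (MonoidAlgebra A D) K]
    (hK : ∀ a ∈ q, ∀ y : K, algebraMap A (MonoidAlgebra A D) a • y = 0) {a b : ℕ}
    (φ : (Fin a → MonoidAlgebra (Kq q) D) →ₗ[MonoidAlgebra (Kq q) D]
        (Fin b → MonoidAlgebra (Kq q) D))
    (E : K →ₛₗ[eq' q D] (Fin a → MonoidAlgebra (Kq q) D)) (hE : ∀ y, φ (E y) = 0)
    (h1 : ∀ x, φ x = 0 → ∃ c : A, c ∉ q ∧ ∃ z : K, E z = ec q D c • x)
    (h2 : ∀ z, E z = 0 → ∃ c : A, c ∉ q ∧ algebraMap A (MonoidAlgebra A D) c • z = 0) :
    GenPq q D K := by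
  classical
  intro s
  obtain ⟨m, V, hV1, hV2, dd, hV3⟩ := hD (Kq q) a b φ (s.image E)
    (by
      intro x hx
      obtain ⟨y, _, rfl⟩ := Finset.mem_image.1 hx
      exact hE y)
  obtain ⟨ι, iι, m', P₁, P₂, l, hP1, hP2, hP3⟩ := exists_fres_sub hV3
  -- lifting of the first component
  have hz : ∀ i : ι, ∃ c : A, c ∉ q ∧ ∃ z : K, E z = ec q D c • P₁ (Pi.single i 1) := by
    intro i
    obtain ⟨w, hw⟩ := hP1 (Pi.single i 1)
    exact h1 _ (hV1 _ hw)
  obtain ⟨c₁, hc₁, hz₁⟩ := exists_common_prime q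
    (p := fun (c : A) (i : ι) => ∃ z : K, E z = ec q D c • P₁ (Pi.single i 1))
    (by
      rintro c d y ⟨z, hz⟩
      refine ⟨algebraMap A (MonoidAlgebra A D) d • z, ?_⟩
      rw [map_smulₛₗ, hz, ec_mul, mul_smul]
      rfl) Finset.univ fun i _ => hz i
  choose z hz' using fun i => hz₁ i (Finset.mem_univ i)
  -- lifting of the second component
  obtain ⟨c₂, hc₂, Q₂, hQ₂⟩ := exists_lift_gen q P₂
  obtain ⟨p, hpa, hpb⟩ : ∃ p : (ι → MonoidAlgebra A D) →ₗ[MonoidAlgebra A D]
      K × ((Fin m' → MonoidAlgebra A D) ⧸ csub D fun _ => q),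
      (∀ v, (p v).1 = Fintype.linearCombination _ z v) ∧
      ∀ v, (p v).2 = (csub D fun _ => q).mkQ (Q₂ v) :=
    ⟨(Fintype.linearCombination _ z).prod ((csub D fun _ => q).mkQ ∘ₗ Q₂), fun _ => rfl,
      fun _ => rfl⟩
  have hp1 : ∀ v, E (p v).1 = ec q D c₁ • P₁ (eqv q D v) := by
    intro v
    rw [hpa, Fintype.linearCombination_apply, map_sum, pi_eq_sum P₁, Finset.smul_sum]
    refine Finset.sum_congr rfl fun i _ => ?_
    rw [map_smulₛₗ, hz', smul_smul, smul_smul, ec_comm]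
    rfl
  have hp2 : ∀ v, (p v).2 = 0 ↔ P₂ (eqv q D v) = 0 := by
    intro v
    rw [hpb, Submodule.mkQ_apply, Submodule.Quotient.mk_eq_zero, ← eqv_eq_zero, hQ₂]
    constructor
    · exact fun h => ec_reg q hc₂ _ h
    · intro h
      rw [h, smul_zero]
  have hp3 : ∀ v, P₁ (eqv q D v) = 0 → ∃ c : A, c ∉ q ∧
      algebraMap A (MonoidAlgebra A D) c • (p v).1 = 0 := by
    intro v hv
    refine h2 _ ?_
    rw [hp1, hv, smul_zero]
  refine ⟨ι, iι, m', l, p, fun v hv => ?_, ?_, fun y hy => ?_⟩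
  · refine Prod.ext ?_ ?_
    · rw [hpa, Fintype.linearCombination_apply]
      exact Finset.sum_eq_zero fun i _ => smul_eq_zero_of_coeff hK _ (hv i) _
    · change (p v).2 = 0
      rw [hp2, (eqv_eq_zero q).2 hv, map_zero]
  · obtain ⟨N', hN'⟩ : ∃ N' : Submodule (MonoidAlgebra A D) (ι → MonoidAlgebra A D),
        ∀ v, v ∈ N' ↔ eqv q D v ∈ LinearMap.ker P₁ ⊓ LinearMap.ker P₂ :=
      ⟨Submodule.comap (eqv q D) (LinearMap.ker P₁ ⊓ LinearMap.ker P₂), fun v => Iff.rfl⟩
    refine GRq.of_torsion (N' := N') (fun v hv => ?_) (fun v hv => ?_)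
      (GRq.of_fres q hN' hP3)
    · have h3 : p v = 0 := hv
      rw [hN', Submodule.mem_inf, LinearMap.mem_ker, LinearMap.mem_ker]
      refine ⟨?_, ?_⟩
      · refine ec_reg q hc₁ _ ?_
        rw [← hp1, h3]
        exact map_zero E
      · refine (hp2 v).1 ?_
        rw [h3]
        rfl
    · rw [hN', Submodule.mem_inf, LinearMap.mem_ker, LinearMap.mem_ker] at hv
      obtain ⟨hv1, hv2⟩ := hv
      obtain ⟨c, hc, h3⟩ := hp3 v hv1
      refine ⟨c, hc, ?_⟩
      rw [LinearMap.mem_ker, map_smul]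
      refine Prod.ext h3 ?_
      change algebraMap A (MonoidAlgebra A D) c • (p v).2 = 0
      rw [(hp2 v).2 hv2, smul_zero]
  · obtain ⟨w, hw1, hw2⟩ := hP2 (E y) (hV2 _ (Finset.mem_image_of_mem E hy))
    obtain ⟨c₃, hc₃, w', hw'⟩ := exists_eq_fam q w
    have h3 : E ((p w').1 - algebraMap A (MonoidAlgebra A D) (c₁ * c₃) • y) = 0 := by
      rw [map_sub, hp1, hw', map_smul, hw1, map_smulₛₗ]
      change _ - ec q D (c₁ * c₃) • E y = 0
      rw [ec_mul, mul_smul, sub_self]
    obtain ⟨c₄, hc₄, h4⟩ := h2 _ h3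
    refine ⟨c₄ * (c₁ * c₃), fun h => (hq.mem_or_mem h).elim hc₄ fun h =>
      (hq.mem_or_mem h).elim hc₁ hc₃, algebraMap A (MonoidAlgebra A D) c₄ • w', ?_⟩
    rw [smul_sub, sub_eq_zero] at h4
    rw [map_smul]
    refine Prod.ext ?_ ?_
    · change algebraMap A (MonoidAlgebra A D) c₄ • (p w').1 = _
      rw [h4, map_mul _ c₄, mul_smul]
    · change algebraMap A (MonoidAlgebra A D) c₄ • (p w').2 = _
      rw [(hp2 w').2 (by rw [hw', map_smul, hw2, smul_zero])]
      exact smul_zero _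

/-- Modules killed by `q` which are generically the kernel of a map between free modules. -/
theorem genPq_of (hD : FieldLPK D) {K : Type*} [AddCommGroup K] [Module (MonoidAlgebra A D) K]
    (hK : ∀ a ∈ q, ∀ y : K, algebraMap A (MonoidAlgebra A D) a • y = 0)
    {a n : ℕ} {X : Type*} (Φ : (Fin a → MonoidAlgebra (A ⧸ q) D) →ₗ[MonoidAlgebra (A ⧸ q) D]
      (X →₀ MonoidAlgebra (A ⧸ q) D) × (Fin n → MonoidAlgebra (A ⧸ q) D))
    (U : K →ₛₗ[red q D] LinearMap.ker Φ)
    (h1 : ∀ y : LinearMap.ker Φ, ∃ c : A, c ∉ q ∧ ∃ z, U z = red q D (algebraMap A _ c) • y)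
    (h2 : ∀ z, U z = 0 → ∃ c : A, c ∉ q ∧ algebraMap A (MonoidAlgebra A D) c • z = 0) :
    GenPq q D K := by
  obtain ⟨b, φ, E, hE, hE1, hE2⟩ := exists_ext q Φ U h1 h2
  exact genPq_of_ext q hD hK φ E hE hE1 hE2

end

end Pool.Agent.Lib.MP_551055_al.T4
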