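import Mathlib
import Pool.Agent.Lib.MP_551055_al.Trim.LS.Stmts
import Pool.Agent.Lib.MP_551055_al.Trim.T4.FinalT
import Pool.Agent.Lib.MP_551055_al.Trim.T4.Ind0
import Pool.Agent.Lib.MP_551055_al.Trim.T4.MainT
import Pool.Agent.Lib.MP_551055_al.Trim.T4.Mods
import Pool.Agent.Lib.MP_551055_al.Trim.T4.Perf
import Pool.Agent.Lib.MP_551055_al.Trim.T5.Core5

/-!
# The final theorem over field coefficients
-/

set_option autoImplicit false

namespace Pool.Agent.Lib.MP_551055_al
end Pool.Agent.Lib.MP_551055_al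

namespace Pool.Agent.Lib.MP_551055_al.LS
end Pool.Agent.Lib.MP_551055_al.LS

namespace Pool.Agent.Lib.MP_551055_al.T4

open Pool.Agent.Lib.MP_551055_al

open Pool.Agent.Lib.MP_551055_al.LS

theorem nGood_of_socStmt {G : Type} [Group G] (D : Subgroup G)
    (h : ∀ (A : Type) [CommRing A] [IsNoetherianRing A], SocStmt A D) : NGood G D :=
  nGood_of_core D fun A _ _ hA K _ _ _ f hM hf => core5 K hA (h A) f hM hf

end Pool.Agent.Lib.MP_551055_al.T4
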