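import Mathlib
import Pool.Agent.Lib.MP_551055_al.Trim.Descent
import Pool.Agent.Lib.MP_551055_al.Trim.LS.Stmts
import Pool.Agent.Lib.MP_551055_al.Trim.T4.Chi
import Pool.Agent.Lib.MP_551055_al.Trim.T4.Csub
import Pool.Agent.Lib.MP_551055_al.Trim.T4.FinalT
import Pool.Agent.Lib.MP_551055_al.Trim.T4.Gen
import Pool.Agent.Lib.MP_551055_al.Trim.T4.Ind0
import Pool.Agent.Lib.MP_551055_al.Trim.T4.Mods
import Pool.Agent.Lib.MP_551055_al.Trim.T4.Soc
import Pool.Agent.Lib.MP_551055_al.Trim.T4.SocAbs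
import Pool.Agent.Lib.MP_551055_al.Trim.T5.Core5
import Pool.Agent.Lib.MP_551055_al.Trim.T5.GRes
import Pool.Agent.Lib.MP_551055_al.Trim.T5.Lift
import Pool.Agent.Lib.MP_551055_al.Trim.T5.Main5

/-!
# Generic resolutions of socles
-/

set_option autoImplicit false

namespace Pool.Agent.Lib.MP_551055_al
end Pool.Agent.Lib.MP_551055_al

namespace Pool.Agent.Lib.MP_551055_al.T4

open Pool.Agent.Lib.MP_551055_al

universe u

section

variable {A : Type u} [CommRing A] {G : Type u} [Group G] {D : Subgroup G}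

/-- The socle of a module which is generically the kernel of a map between quotients of free
modules. -/
theorem genPq_soc_abs [IsNoetherianRing A] (q : Ideal A) [q.IsPrime] (hD : FieldLPK D)
    {W : Type*} [AddCommGroup W] [Module (MonoidAlgebra A D) W]
    {Y : Type*} [AddCommGroup Y] [Module (MonoidAlgebra A G) Y]
    {Y₂ : Type*} [AddCommGroup Y₂] [Module (MonoidAlgebra A G) Y₂]
    {ι : Type} [Finite ι] (J : ι → Ideal A) {ι' : Type} [Finite ι'] (J' : ι' → Ideal A)
    (f : W →ₛₗ[inc A D.subtype] Y)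
    (f₂ : ((ι → MonoidAlgebra A D) ⧸ csub D J) →ₛₗ[inc A D.subtype] Y₂)
    (u : ((ι → MonoidAlgebra A D) ⧸ csub D J) →ₗ[MonoidAlgebra A D]
      ((ι' → MonoidAlgebra A D) ⧸ csub D J'))
    (θ : W →ₗ[MonoidAlgebra A D] ((ι → MonoidAlgebra A D) ⧸ csub D J))
    (θY : Y → Y₂) (hθY : ∀ w, θY (f w) = f₂ (θ w)) (hθY0 : θY 0 = 0)
    (tG : Y₂ →ₗ[MonoidAlgebra A G] ((ι → MonoidAlgebra A G) ⧸ csub G J))
    (htG : Function.Injective tG)
    (hu : ∀ w, u (θ w) = 0) {c₀ : A} (hc₀ : c₀ ∉ q)
    (hker : ∀ w, θ w = 0 → algebraMap A (MonoidAlgebra A D) c₀ • w = 0)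
    (hkerY : ∀ y, θY y = 0 → algebraMap A (MonoidAlgebra A G) c₀ • y = 0)
    (hran : ∀ x, u x = 0 → ∃ w, θ w = algebraMap A (MonoidAlgebra A D) c₀ • x)
    (K : Submodule (MonoidAlgebra A D) W)
    (hK : ∀ w, w ∈ K ↔ (∀ a ∈ q, algebraMap A (MonoidAlgebra A D) a • w = 0) ∧ f w = 0) :
    GenPq q D K := by
  classical
  obtain ⟨c, n, β, α, hc, hβ, hα, hα'⟩ := exists_socle_map q J D
  obtain ⟨c', n', β', α', hc', -, -, hα₁⟩ := exists_socle_map q J G
  obtain ⟨c'', n'', β'', α'', hc'', -, -, hα₂⟩ := exists_socle_map q J' D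
  -- the maps on the socle
  have hfq : ∀ (z : (ι → MonoidAlgebra A D) ⧸ csub D J), z ∈ qker (Γ := D) q _ →
      tG (f₂ z) ∈ qker (Γ := G) q ((ι → MonoidAlgebra A G) ⧸ csub G J) := by
    intro z hz a ha
    have h1 : algebraMap A (MonoidAlgebra A G) a • f₂ z = 0 := by
      rw [← incB_algebraMap A D, ← map_smulₛₗ, hz a ha, map_zero]
    rw [← map_smul, h1, map_zero]
  have huq : ∀ (z : (ι → MonoidAlgebra A D) ⧸ csub D J), z ∈ qker (Γ := D) q _ →
      u z ∈ qker (Γ := D) q ((ι' → MonoidAlgebra A D) ⧸ csub D J') := by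
    intro z hz a ha
    rw [← map_smul, hz a ha, map_zero]
  let X := Fin n' × Quotient (QuotientGroup.rightRel D)
  let Ψ : qker (Γ := D) q ((ι → MonoidAlgebra A D) ⧸ csub D J) →ₛₗ[red q D]
      ((X →₀ MonoidAlgebra (A ⧸ q) D) × (Fin n'' → MonoidAlgebra (A ⧸ q) D)) :=
    { toFun := fun z => (chi D n' (α' ⟨_, hfq z.1 z.2⟩), α'' ⟨_, huq z.1 z.2⟩)
      map_add' := by
        intro z z'
        refine Prod.ext ?_ ?_
        · change chi D n' (α' ⟨_, _⟩) = chi D n' (α' ⟨_, _⟩) + chi D n' (α' ⟨_, _⟩)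
          rw [← map_add, ← map_add]
          congr 2
          apply Subtype.ext
          change tG (f₂ (z.1 + z'.1)) = tG (f₂ z.1) + tG (f₂ z'.1)
          rw [map_add, map_add]
        · change α'' ⟨_, _⟩ = α'' ⟨_, _⟩ + α'' ⟨_, _⟩
          rw [← map_add]
          congr 1
          apply Subtype.ext
          exact map_add u z.1 z'.1
      map_smul' := by
        intro r z
        refine Prod.ext ?_ ?_
        · change chi D n' (α' ⟨_, _⟩) = red q D r • chi D n' (α' ⟨_, _⟩)
          rw [← chi_smul, ← red_inc, ← map_smulₛₗ]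
          congr 2
          apply Subtype.ext
          change tG (f₂ (r • z.1)) = inc A D.subtype r • tG (f₂ z.1)
          rw [map_smulₛₗ, map_smul]
        · change α'' ⟨_, _⟩ = red q D r • α'' ⟨_, _⟩
          rw [← map_smulₛₗ]
          congr 1
          apply Subtype.ext
          exact map_smul u r z.1 }
  have hΨ : ∀ z, Ψ z = 0 →
      algebraMap A (MonoidAlgebra A G) c' • f₂ z.1 = 0 ∧
        algebraMap A (MonoidAlgebra A D) c'' • u z.1 = 0 := by
    intro z hz
    constructor
    · have h1 : α' ⟨_, hfq z.1 z.2⟩ = redv q 0 := by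
        rw [map_zero]
        exact chi_eq_zero D (congrArg Prod.fst hz)
      have h2 := hα₁ _ _ h1
      rw [map_zero] at h2
      apply htG
      rw [map_smul, map_zero]
      exact h2.symm
    · have h1 : α'' ⟨_, huq z.1 z.2⟩ = redv q 0 := by
        rw [map_zero]
        exact congrArg Prod.snd hz
      have h2 := hα₂ _ _ h1
      rw [map_zero] at h2
      exact h2.symm
  have hΨ0 : ∀ z : qker (Γ := D) q ((ι → MonoidAlgebra A D) ⧸ csub D J),
      f₂ z.1 = 0 → u z.1 = 0 → Ψ z = 0 := by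
    intro z h1 h2
    refine Prod.ext ?_ ?_
    · change chi D n' (α' ⟨_, _⟩) = 0
      have h3 : (⟨_, hfq z.1 z.2⟩ : qker (Γ := G) q ((ι → MonoidAlgebra A G) ⧸ csub G J)) = 0 :=
        Subtype.ext (by
          change tG (f₂ z.1) = 0
          rw [h1, map_zero])
      rw [h3, map_zero, map_zero]
    · change α'' ⟨_, _⟩ = 0
      have h3 : (⟨_, huq z.1 z.2⟩ : qker (Γ := D) q ((ι' → MonoidAlgebra A D) ⧸ csub D J')) = 0 :=
        Subtype.ext h2
      rw [h3, map_zero]
  -- the map between free modules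
  let βq : (Fin n → MonoidAlgebra A D) →ₗ[MonoidAlgebra A D]
      qker (Γ := D) q ((ι → MonoidAlgebra A D) ⧸ csub D J) := LinearMap.codRestrict _ β hβ
  obtain ⟨Φ, hΦ⟩ := exists_descend q (Ψ.comp βq)
  -- the map from the socle
  have hmem : ∀ w ∈ K, θ w ∈ qker (Γ := D) q ((ι → MonoidAlgebra A D) ⧸ csub D J) := by
    intro w hw a ha
    rw [← map_smul, ((hK w).1 hw).1 a ha, map_zero]
  have hf0 : ∀ w ∈ K, f₂ (θ w) = 0 := by
    intro w hw
    rw [← hθY, ((hK w).1 hw).2, hθY0]
  have hΦK : ∀ (w : W) (hw : w ∈ K), Φ (α ⟨θ w, hmem w hw⟩) = 0 := by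
    intro w hw
    obtain ⟨v, hv⟩ := redv_surjective q (α ⟨θ w, hmem w hw⟩)
    have h1 := hα' _ _ hv.symm
    rw [← hv, hΦ]
    change Ψ (βq v) = 0
    apply hΨ0
    · change f₂ (β v) = 0
      rw [h1, map_smulₛₗ, hf0 w hw, smul_zero]
    · change u (β v) = 0
      rw [h1, map_smul, hu, smul_zero]
  let U : K →ₛₗ[red q D] LinearMap.ker Φ :=
    { toFun := fun w => ⟨α ⟨θ w.1, hmem w.1 w.2⟩, hΦK w.1 w.2⟩
      map_add' := by
        intro w w'
        apply Subtype.ext
        change α _ = α _ + α _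
        rw [← map_add]
        congr 1
        exact Subtype.ext (map_add θ w.1 w'.1)
      map_smul' := by
        intro r w
        apply Subtype.ext
        change α _ = red q D r • α _
        rw [← map_smulₛₗ]
        congr 1
        exact Subtype.ext (map_smul θ r w.1) }
  have hprod : ∀ a b : A, a ∉ q → b ∉ q → a * b ∉ q := fun a b ha hb h =>
    (Ideal.IsPrime.mem_or_mem inferInstance h).elim ha hb
  refine genPq_of q hD (fun a ha y => Subtype.ext (((hK y.1).1 y.2).1 a ha)) Φ U ?_ ?_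
  · rintro ⟨y, hy⟩
    obtain ⟨v, rfl⟩ := redv_surjective q y
    have h1 : Ψ (βq v) = 0 := (hΦ v).symm.trans hy
    obtain ⟨h2, h3⟩ := hΨ _ h1
    change algebraMap A (MonoidAlgebra A G) c' • f₂ (β v) = 0 at h2
    change algebraMap A (MonoidAlgebra A D) c'' • u (β v) = 0 at h3
    -- the element `c' c'' β v`
    have h4 : f₂ (algebraMap A (MonoidAlgebra A D) (c'' * c') • β v) = 0 := by
      rw [map_smulₛₗ, incB_algebraMap, map_mul, mul_smul, h2, smul_zero]
    have h5 : u (algebraMap A (MonoidAlgebra A D) (c'' * c') • β v) = 0 := by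
      rw [mul_comm, map_smul, map_mul, mul_smul, h3, smul_zero]
    obtain ⟨w, hw⟩ := hran _ h5
    have hwK : algebraMap A (MonoidAlgebra A D) c₀ • w ∈ K := by
      rw [hK]
      constructor
      · intro a ha
        rw [smul_smul, Algebra.commutes, mul_smul]
        apply hker
        have h6 : algebraMap A (MonoidAlgebra A D) a • β v = 0 := hβ v a ha
        have hcomm : ∀ (b : A) (z : (ι → MonoidAlgebra A D) ⧸ csub D J),
            algebraMap A (MonoidAlgebra A D) a • algebraMap A (MonoidAlgebra A D) b • z =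
            algebraMap A (MonoidAlgebra A D) b • algebraMap A (MonoidAlgebra A D) a • z := by
          intro b z
          rw [smul_smul, smul_smul, Algebra.commutes]
        rw [map_smul, hw, hcomm, hcomm, h6, smul_zero, smul_zero]
      · rw [map_smulₛₗ, incB_algebraMap]
        apply hkerY
        rw [hθY, hw, map_smulₛₗ, h4, smul_zero]
    refine ⟨c * (c₀ * (c₀ * (c'' * c'))), ?_, ⟨_, hwK⟩, ?_⟩
    · exact hprod _ _ hc (hprod _ _ hc₀ (hprod _ _ hc₀ (hprod _ _ hc'' hc')))
    · apply Subtype.ext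
      change α _ = red q D _ • redv q v
      rw [← map_smulₛₗ, map_mul, mul_smul]
      apply hα
      change θ (algebraMap A (MonoidAlgebra A D) c₀ • w) = _
      rw [map_smul, hw, map_smul]
      simp only [map_mul, mul_smul]
  · intro w hw
    refine ⟨c₀ * c, hprod _ _ hc₀ hc, ?_⟩
    apply Subtype.ext
    change algebraMap A (MonoidAlgebra A D) (c₀ * c) • w.1 = 0
    have h1 : α ⟨θ w.1, hmem w.1 w.2⟩ = redv q 0 := by
      rw [map_zero]
      exact congrArg Subtype.val hw
    have h2 := hα' _ _ h1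
    rw [map_zero] at h2
    rw [map_mul, mul_smul]
    apply hker
    rw [map_smul]
    exact h2.symm

end

/-- The statement on socles holds for all groups `D` such that the kernels over the group algebras
over fields are locally perfect. -/
theorem socStmt_of_fieldLPK {A : Type u} [CommRing A] [IsNoetherianRing A] {G : Type u} [Group G]
    (D : Subgroup G) (hD : FieldLPK D) : SocStmt A D := by
  intro ι _ J q _ W _ _ ι' _ J' f f₂ u θ hθ hu c₀ hc₀ hker hran
  refine genPq_soc_abs q hD J J' f f₂ u θ (Ind.map θ) (fun w => Ind.ext fun x => ?_)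
    (map_zero _) (toSJ J) (toSJ_injective J) hu hc₀ hker (fun y hy => Ind.ext fun x => ?_) hran
    (Soc q f) fun w => mem_Soc
  · rw [Ind.map_apply, hθ]
  · rw [Ind.alg_smul_apply, Ind.zero_apply]
    apply hker
    rw [← Ind.map_apply, hy, Ind.zero_apply]

/-- Subgroups with locally perfect kernels over fields are good. -/
theorem nGood_of_fieldLPK {G : Type} [Group G] (D : Subgroup G) (hD : FieldLPK D) :
    NGood G D :=
  nGood_of_socStmt D fun _ _ _ => socStmt_of_fieldLPK D hD

end Pool.Agent.Lib.MP_551055_al.T4
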